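import Pool.Agent.H68.SF.LT2

/-! Enumerations and surjections from ordinals (module LEO). -/

open Ordinal Cardinal Order Set
open scoped ZFSet

namespace SF

private theorem leo_tm : Tm ZFm (fun _ v => (ZFSet.prod (v 2) (v 3)).sep fun q =>
    q ∈ v 0 ∨ (fst q ∉ dm (v 0) ∧ snd q = v 1)) :=
  Tm.sep (R := fun _ u => u 0 ∈ u 1 ∨ (fst (u 0) ∉ dm (u 1) ∧ snd (u 0) = u 2))
    ((Dfb.mem (Tm.var 0) (Tm.var 1)).or
      ((Dfb.mem (Tm.fst (Tm.var 0)) (Tm.dm (Tm.var 1))).not.and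
        (Dfb.eq (Tm.snd (Tm.var 0)) (Tm.var 2))))
    (Tm.prod (Tm.var 2) (Tm.var 3))

theorem pf_LEO : T_LEO := by
  intro M k x hx
  constructor
  · rintro ⟨g, hgM, hg⟩
    rcases ZFSet.eq_empty_or_nonempty x with rfl | ⟨y0, hy0⟩
    · refine ⟨0, ∅, k.mempty, ⟨?_, ?_⟩, ?_⟩
      · intro z hz
        exact absurd hz (ZFSet.notMem_empty z)
      · intro z hz
        rw [Ordinal.toZFSet_zero] at hz
        exact absurd hz (ZFSet.notMem_empty z)
      · intro b hb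
        exact absurd hb (ZFSet.notMem_empty b)
    · have hdM : M (dm g) := (Tm.dm (Tm.var 0)).1 M k (fun _ => g) (fun _ => hgM)
      have hdO : ∀ z ∈ dm g, ∃ ξ : Ordinal.{0}, z = ξ.toZFSet := by
        intro z hz
        obtain ⟨y, hy⟩ := mem_dm.1 hz
        obtain ⟨ξ, y', -, e⟩ := hg.pr _ hy
        exact ⟨ξ, (ZFSet.pair_inj.1 e).1⟩
      have hsM : M (⋃₀ (dm g) : ZFSet) := k.union _ hdM
      have hsO : IsOrd (⋃₀ (dm g) : ZFSet) := by
        rw [isOrd_iff]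
        constructor
        · intro a ha b hb
          obtain ⟨z, hz, haz⟩ := ZFSet.mem_sUnion.1 ha
          obtain ⟨ξ, rfl⟩ := hdO z hz
          exact ZFSet.mem_sUnion.2 ⟨_, hz, ((isOrd_iff _).1 ⟨ξ, rfl⟩).1 a haz hb⟩
        · intro a ha
          obtain ⟨z, hz, haz⟩ := ZFSet.mem_sUnion.1 ha
          obtain ⟨ξ, rfl⟩ := hdO z hz
          exact ((isOrd_iff _).1 ⟨ξ, rfl⟩).2 a haz
      obtain ⟨σ, hσ⟩ := hsO
      have hσM : M σ.toZFSet := hσ ▸ hsM
      have hαM : M (Order.succ σ).toZFSet := by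
        rw [Ordinal.toZFSet_succ]
        exact (Tm.ins (Tm.var 0) (Tm.var 0)).1 M k (fun _ => σ.toZFSet) (fun _ => hσM)
      have hdα : ∀ z ∈ dm g, z ∈ (Order.succ σ).toZFSet := by
        intro z hz
        obtain ⟨ξ, rfl⟩ := hdO z hz
        rw [Ordinal.toZFSet_mem_toZFSet_iff, Order.lt_succ_iff, ← Ordinal.toZFSet_subset_toZFSet_iff,
          ← hσ]
        intro a ha
        exact ZFSet.mem_sUnion.2 ⟨_, hz, ha⟩
      have hy0M : M y0 := k.trans _ hx _ hy0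
      have hfM := leo_tm.1 M k
        (cons g (cons y0 (cons (Order.succ σ).toZFSet (cons x fun _ => x))))
        (((((show In M (fun _ => x) from fun _ => hx).cons hx).cons hαM).cons hy0M).cons hgM)
      have hmem : ∀ a b, ZFSet.pair a b ∈ (ZFSet.prod (Order.succ σ).toZFSet x).sep
          (fun q => q ∈ g ∨ (fst q ∉ dm g ∧ snd q = y0)) ↔
          (a ∈ (Order.succ σ).toZFSet ∧ b ∈ x) ∧ (ZFSet.pair a b ∈ g ∨ (a ∉ dm g ∧ b = y0)) := by
        intro a b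
        rw [ZFSet.mem_sep, ZFSet.pair_mem_prod, fst_pair, snd_pair]
      refine ⟨Order.succ σ, _, hfM, ⟨?_, ?_⟩, ?_⟩
      · intro z hz
        exact (ZFSet.mem_sep.1 hz).1
      · intro z hz
        by_cases hzd : z ∈ dm g
        · obtain ⟨y, hy⟩ := mem_dm.1 hzd
          obtain ⟨ξ, y', hy', e⟩ := hg.pr _ hy
          have e2 := (ZFSet.pair_inj.1 e).2
          subst e2
          refine ⟨y, (hmem _ _).2 ⟨⟨hz, hy'⟩, Or.inl hy⟩, ?_⟩
          intro w hw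
          rcases ((hmem _ _).1 hw).2 with h | h
          · exact hg.svl _ _ _ h hy
          · exact absurd hzd h.1
        · refine ⟨y0, (hmem _ _).2 ⟨⟨hz, hy0⟩, Or.inr ⟨hzd, rfl⟩⟩, ?_⟩
          intro w hw
          rcases ((hmem _ _).1 hw).2 with h | h
          · exact absurd (mem_dm.2 ⟨_, h⟩) hzd
          · exact h.2
      · intro b hb
        obtain ⟨a, ha⟩ := hg.onto b hb
        exact ⟨a, hdα a (mem_dm.2 ⟨_, ha⟩),
          (hmem _ _).2 ⟨⟨hdα a (mem_dm.2 ⟨_, ha⟩), hb⟩, Or.inl ha⟩⟩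
  · rintro ⟨α, f, hfM, hf, hon⟩
    refine ⟨f, hfM, ?_, svl_of_isFunc hf, ?_⟩
    · intro q hq
      obtain ⟨a, ha, b, hb, rfl⟩ := ZFSet.mem_prod.1 (hf.1 hq)
      obtain ⟨ξ, -, rfl⟩ := Ordinal.mem_toZFSet_iff.1 ha
      exact ⟨ξ, b, hb, rfl⟩
    · intro y hy
      obtain ⟨a, -, ha⟩ := hon y hy
      exact ⟨a, ha⟩

end SF
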