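import Pool.Agent.H77.SF.KT

/-! Reflection: arbitrarily high elementary levels (module KA). -/

open Ordinal Cardinal Order Set
open scoped ZFSet

namespace SF.H65

open SF

section

open Classical in
/-- a witness for an existential formula -/
private noncomputable def kaW (φ : Fml) (v : ℕ → V) : V :=
  if h : ∃ x, Sat Al φ (cons x v) then h.choose else ∅

private theorem kaW_spec {φ : Fml} {v : ℕ → V} (h : ∃ x, Sat Al φ (cons x v)) :
    Sat Al φ (cons (kaW φ v) v) := by
  unfold kaW
  rw [dif_pos h]
  exact h.choose_spec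

/-- a bound for the ranks of the witnesses with parameters in the level `b` -/
private noncomputable def kaG (b : Ordinal.{0}) : Ordinal.{0} :=
  ⨆ i : Fml × (ℕ → El (V_ b)), Order.succ (kaW i.1 fun n => (i.2 n).val).rank

private theorem kaG_lt {b : Ordinal.{0}} (φ : Fml) (v : ℕ → V) (hv : ∀ n, v n ∈ V_ b) :
    (kaW φ v).rank < kaG b := by
  have h1 := Ordinal.le_iSup
    (fun i : Fml × (ℕ → El (V_ b)) => Order.succ (kaW i.1 fun n => (i.2 n).val).rank)
    (φ, fun n => ⟨v n, hv n⟩)
  exact lt_of_lt_of_le (Order.lt_succ _) h1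

private noncomputable def kaS (α : Ordinal.{0}) : ℕ → Ordinal.{0}
  | 0 => Order.succ α
  | n + 1 => max (Order.succ (kaS α n)) (kaG (kaS α n))

private theorem kaS_lt (α : Ordinal.{0}) (n : ℕ) : kaS α n < kaS α (n + 1) :=
  lt_of_lt_of_le (Order.lt_succ _) (le_max_left _ _)

private theorem kaS_mono (α : Ordinal.{0}) : StrictMono (kaS α) :=
  strictMono_nat_of_lt_succ (kaS_lt α)

end

theorem ka : T_KA := by
  classical
  intro α
  let lam : Ordinal.{0} := ⨆ n, kaS α n
  have hle : ∀ n, kaS α n ≤ lam := fun n => Ordinal.le_iSup (kaS α) n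
  have hlt : ∀ n, kaS α n < lam := fun n => lt_of_lt_of_le (kaS_lt α n) (hle _)
  have hmem : ∀ x : V, x ∈ V_ lam ↔ ∃ n, x ∈ V_ (kaS α n) := by
    intro x
    simp only [ZFSet.mem_vonNeumann]
    exact Ordinal.lt_iSup_iff
  have hmon : ∀ {m n : ℕ}, m ≤ n → ∀ x : V, x ∈ V_ (kaS α m) → x ∈ V_ (kaS α n) := by
    intro m n h x hx
    rw [ZFSet.mem_vonNeumann] at hx ⊢
    exact lt_of_lt_of_le hx ((kaS_mono α).monotone h)
  refine ⟨lam, lt_trans (Order.lt_succ α) (hlt 0), ?_, ?_⟩
  · rw [Order.isSuccLimit_iff]
    refine ⟨?_, ?_⟩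
    · intro h
      have h1 := hlt 0
      exact absurd h1 (not_lt_of_ge (h.isBot _))
    · refine Order.isSuccPrelimit_of_succ_lt ?_
      intro x hx
      obtain ⟨n, hn⟩ := Ordinal.lt_iSup_iff.1 hx
      exact lt_of_le_of_lt (Order.succ_le_of_lt hn) (hlt n)
  · intro φ
    induction φ with
    | mem i j => intro v _; exact Iff.rfl
    | eq i j => intro v _; exact Iff.rfl
    | prd i => intro v _; exact Iff.rfl
    | neg φ ih => intro v hv; exact not_congr (ih v hv)
    | and φ ψ ih1 ih2 => intro v hv; exact and_congr (ih1 v hv) (ih2 v hv)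
    | ex φ ih =>
      intro v hv
      have hc : ∀ x ∈ V_ lam, ∀ i, cons x v i ∈ V_ lam := by
        intro x hx i
        cases i with
        | zero => exact hx
        | succ i => exact hv i
      constructor
      · rintro ⟨x, hx, h⟩
        exact ⟨x, trivial, (ih (cons x v) (hc x hx)).1 h⟩
      · rintro ⟨x, -, h⟩
        choose a ha using fun i => (hmem (v i)).1 (hv i)
        let k := φ.bd
        let v2 : ℕ → V := fun i => if i < k then v i else v 0
        let n : ℕ := (Finset.range (k + 1)).sup a
        have hn : ∀ i, v2 i ∈ V_ (kaS α n) := by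
          intro i
          show (if i < k then v i else v 0) ∈ V_ (kaS α n)
          split_ifs with hi
          · exact hmon (Finset.le_sup (f := a) (Finset.mem_range.2 (by omega))) _ (ha i)
          · exact hmon (Finset.le_sup (f := a) (Finset.mem_range.2 (by omega))) _ (ha 0)
        have hcg : ∀ (M : V → Prop) (y : V), Sat M φ (cons y v) ↔ Sat M φ (cons y v2) := by
          intro M y
          refine satP_congr _ _ φ _ _ fun i hi => ?_
          cases i with
          | zero => rfl
          | succ i =>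
            show v i = if i < k then v i else v 0
            rw [if_pos (by omega)]
        have h1 : ∃ y, Sat Al φ (cons y v2) := ⟨x, (hcg Al x).1 h⟩
        have h2 := kaW_spec h1
        have h3 : kaW φ v2 ∈ V_ lam := by
          refine (hmem _).2 ⟨n + 1, ?_⟩
          rw [ZFSet.mem_vonNeumann]
          exact lt_of_lt_of_le (kaG_lt φ v2 hn) (le_max_right _ _)
        exact ⟨kaW φ v2, h3, (ih (cons (kaW φ v2) v) (hc _ h3)).2 ((hcg Al _).2 h2)⟩

end SF.H65
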