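import Pool.Agent.H9.SF.WDefs
import Pool.Agent.H11.SF.ZN

/-! Models with the same sentences satisfy the same axioms (module WB). -/

open Ordinal Cardinal Order Set
open scoped ZFSet

namespace SF.H65

open SF SF.H11

/-! ### universal closure -/

/-- universal quantifier -/
def allf (φ : Fml) : Fml := .neg (.ex (.neg φ))

/-- `n` universal quantifiers -/
def allN : ℕ → Fml → Fml
  | 0, φ => φ
  | n + 1, φ => allf (allN n φ)

theorem bd_allN (n : ℕ) (φ : Fml) : (allN n φ).bd = φ.bd - n := by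
  induction n with
  | zero => rfl
  | succ n ih =>
    show (allN n φ).bd - 1 = _
    rw [ih]
    omega

theorem sat_allf (M : V → Prop) (φ : Fml) (v : ℕ → V) :
    Sat M (allf φ) v ↔ ∀ x, M x → Sat M φ (cons x v) := by
  unfold allf Sat
  simp only [SatP, not_exists, not_and, not_not]

theorem all_allf (M : V → Prop) (φ : Fml) :
    (∀ v, In M v → Sat M (allf φ) v) ↔ ∀ v, In M v → Sat M φ v := by
  constructor
  · intro h v hv
    have h1 := (sat_allf M φ (fun i => v (i + 1))).1 (h _ fun i => hv _) (v 0) (hv 0)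
    rwa [cons_tail] at h1
  · intro h v hv
    exact (sat_allf M φ v).2 fun x hx => h _ (hv.cons hx)

theorem all_allN (M : V → Prop) (n : ℕ) (φ : Fml) :
    (∀ v, In M v → Sat M (allN n φ) v) ↔ ∀ v, In M v → Sat M φ v := by
  induction n with
  | zero => exact Iff.rfl
  | succ n ih => exact (all_allf M (allN n φ)).trans ih

/-- transfer of a universally valid relation -/
theorem trf {K : (V → Prop) → Prop} {R : (V → Prop) → (ℕ → V) → Prop} {M N : V → Prop}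
    (hR : Dfb K R) (k1 : K M) (k2 : K N) (hN : ∃ x, N x) (h : SameTh M N)
    (hu : ∀ w, In N w → R N w) : ∀ v, In M v → R M v := by
  obtain ⟨φ, hφ⟩ := hR
  obtain ⟨b, hb⟩ := hN
  have h1 : ∀ w, In N w → Sat N φ w := fun w hw => (hφ N k2 w hw).2 (hu w hw)
  have h2 := (all_allN N φ.bd φ).2 h1
  have h3 : ∀ v, In M v → Sat M (allN φ.bd φ) v := by
    intro v _
    exact (h (allN φ.bd φ) (by rw [bd_allN, Nat.sub_self]) v (fun _ => b)).2
      (h2 (fun _ => b) fun _ => hb)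
  have h4 := (all_allN M φ.bd φ).1 h3
  exact fun v hv => (hφ M k1 v hv).1 (h4 v hv)

/-! ### definability of `ω` over transitive classes -/

variable {K : (V → Prop) → Prop}

theorem dempty (hK : KTr K) : Dfb K (fun _ v => v 0 = (∅ : V)) := by
  have h1 : Dfb K (fun _ v => ∀ t ∈ v 0, False) :=
    (Dfb.ball (R := fun _ _ => False) hK (Tm.var 0) Dfb.fls)
  refine h1.congr fun M k v hv => ?_
  rw [ZFSet.eq_empty]

theorem dins (hK : KTr K) : Dfb K (fun _ v => v 0 = insert (v 1) (v 1)) := by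
  have h1 : Dfb K (fun _ v => v 0 ∈ v 1 ↔ (v 0 = v 2 ∨ v 0 ∈ v 2)) :=
    (Dfb.mem (Tm.var 0) (Tm.var 1)).iff
      ((Dfb.eq (Tm.var 0) (Tm.var 2)).or (Dfb.mem (Tm.var 0) (Tm.var 2)))
  refine h1.all.congr fun M k v hv => ?_
  constructor
  · intro h
    ext t
    rw [ZFSet.mem_insert_iff]
    constructor
    · intro ht
      exact (h t (hK M k _ (hv 0) t ht)).1 ht
    · rintro (rfl | ht)
      · exact (h _ (hv 1)).2 (Or.inl rfl)
      · exact (h t (hK M k _ (hv 1) t ht)).2 (Or.inr ht)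
  · intro h t _
    show t ∈ v 0 ↔ (t = v 1 ∨ t ∈ v 1)
    rw [h, ZFSet.mem_insert_iff]

theorem dom (hK : KTr K) : Dfb K (fun _ v => v 0 = SF.om) := by
  have hA : Dfb K (fun _ v => ∃ e ∈ v 0, e = (∅ : V)) :=
    Dfb.bex (R := fun _ v => v 0 = (∅ : V)) hK (Tm.var 0) (dempty hK)
  have hB0 : Dfb K (fun _ v => ∃ z ∈ v 1, z = insert (v 0) (v 0)) :=
    Dfb.bex (R := fun _ v => v 0 = insert (v 1) (v 1)) hK (Tm.var 1) (dins hK)
  have hB : Dfb K (fun _ v => ∀ y ∈ v 0, ∃ z ∈ v 0, z = insert y y) :=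
    Dfb.ball (R := fun _ v => ∃ z ∈ v 1, z = insert (v 0) (v 0)) hK (Tm.var 0) hB0
  have hI : Dfb K (fun _ v => v 1 = insert (v 0) (v 0)) :=
    ((dins hK).rn fun i => match i with | 0 => 1 | _ + 1 => 0).congr fun M k v hv => Iff.rfl
  have hC0 : Dfb K (fun _ v => ∃ z ∈ v 1, v 0 = insert z z) :=
    Dfb.bex (R := fun _ v => v 1 = insert (v 0) (v 0)) hK (Tm.var 1) hI
  have hC : Dfb K (fun _ v => ∀ y ∈ v 0, (y = (∅ : V) ∨ ∃ z ∈ v 0, y = insert z z)) :=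
    Dfb.ball (R := fun _ v => v 0 = (∅ : V) ∨ ∃ z ∈ v 1, v 0 = insert z z) hK (Tm.var 0)
      ((dempty hK).or hC0)
  refine ((hA.and hB).and hC).congr fun M k v hv => ?_
  rw [om_char]
  constructor
  · rintro ⟨⟨⟨e, he, rfl⟩, h2⟩, h3⟩
    refine ⟨he, fun y hy => ?_, h3⟩
    obtain ⟨z, hz, rfl⟩ := h2 y hy
    exact hz
  · rintro ⟨h1, h2, h3⟩
    exact ⟨⟨⟨∅, h1, rfl⟩, fun y hy => ⟨_, h2 y hy, rfl⟩⟩, h3⟩

/-! ### the axioms -/

theorem wb_zf {M N : V → Prop} (hM : Trn M) (hN : Trn N) (nM : ∃ x, M x) (nN : ∃ x, N x)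
    (h : SameTh M N) (z : ZFm N) : ZFm M := by
  have hK : KTr Trn := fun _ k => k
  obtain ⟨m, hm⟩ := nM
  refine ⟨hM, ?_, ?_, ?_, ?_, ?_⟩
  · intro x y hx hy
    have hR := (dpair hK).ex
    obtain ⟨b, hb, h2⟩ := trf hR hM hN nN h (fun w hw => ⟨_, z.pair _ _ (hw 0) (hw 1), rfl⟩)
      (cons x fun _ => y) ((show In M (fun _ => y) from fun _ => hy).cons hx)
    have h3 : b = {x, y} := h2
    rwa [h3] at hb
  · intro x hx
    have hR := (dunion hK).ex
    obtain ⟨b, hb, h2⟩ := trf hR hM hN nN h (fun w hw => ⟨_, z.union _ (hw 0), rfl⟩)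
      (fun _ => x) (fun _ => hx)
    have h3 : b = (⋃₀ x : ZFSet) := h2
    rwa [h3] at hb
  · have hR := (dom hK).ex
    obtain ⟨b, hb, h2⟩ := trf hR hM hN nN h (fun w hw => ⟨_, z.inf, rfl⟩)
      (fun _ => m) (fun _ => hm)
    have h3 : b = SF.om := h2
    rwa [h3] at hb
  · intro φ v a hv ha
    have hR := (dsep hK φ).ex
    obtain ⟨b, hb, h2⟩ := trf hR hM hN nN h
      (fun w hw => ⟨_, z.sep φ (fun i => w (i + 1)) (w 0) (fun i => hw _) (hw 0), rfl⟩)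
      (cons a v) ((show In M v from hv).cons ha)
    have h3 : b = a.sep fun z => Sat M φ (cons z v) := h2
    rwa [h3] at hb
  · intro φ v a hv ha hyp
    have hR := (dcoll1 hK φ).imp (dcoll2 hK φ)
    exact trf hR hM hN nN h
      (fun w hw h3 => z.coll φ (fun i => w (i + 1)) (w 0) (fun i => hw _) (hw 0) h3)
      (cons a v) ((show In M v from hv).cons ha) hyp

theorem wb_zfc {M N : V → Prop} (hM : Trn M) (hN : Trn N) (nM : ∃ x, M x) (nN : ∃ x, N x)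
    (h : SameTh M N) (z : ZFCm N) : ZFCm M := by
  have zf : ZFm M := wb_zf hM hN nM nN h z.toZFm
  refine ⟨zf, ?_⟩
  intro x hx
  have hR : Dfb ZFm (fun M v => ∃ a, M a ∧ ∃ f, M f ∧ (IsOrd a ∧ Onto f a (v 0))) := by
    refine Dfb.congr (Dfb.ex (R := fun M v => ∃ f, M f ∧ (IsOrd (v 0) ∧ Onto f (v 0) (v 1))) ?_)
      fun M k v hv => Iff.rfl
    refine Dfb.congr (Dfb.ex (R := fun M v => IsOrd (v 1) ∧ Onto (v 0) (v 1) (v 2)) ?_)
      fun M k v hv => Iff.rfl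
    exact (Dfb.isOrd (Tm.var 1)).and (Dfb.onto (Tm.var 0) (Tm.var 1) (Tm.var 2))
  obtain ⟨a, ha, f, hf, ⟨α, rfl⟩, h2⟩ := trf hR zf z.toZFm nN h (by
    intro w hw
    obtain ⟨α, f, hf, h3⟩ := z.wo (w 0) (hw 0)
    refine ⟨α.toZFSet, ?_, f, hf, ⟨α, rfl⟩, h3⟩
    have h4 := (Tm.dm (Tm.var 0)).1 N z.toZFm (fun _ => f) (fun _ => hf)
    have h5 : dm f = α.toZFSet := by
      ext z
      rw [mem_dm]
      constructor
      · rintro ⟨y, hy⟩
        exact (ZFSet.pair_mem_prod.1 (h3.1.1 hy)).1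
      · intro hz
        obtain ⟨y, hy, -⟩ := h3.1.2 z hz
        exact ⟨y, hy⟩
    rw [← h5]
    exact h4) (fun _ => x) (fun _ => hx)
  exact ⟨α, f, hf, h2⟩

theorem wb : T_WB := by
  intro M N hM hN nM nN h
  refine ⟨wb_zf hM hN nM nN h, wb_zfc hM hN nM nN h, fun z => ?_⟩
  have zf : ZFCm M := wb_zfc hM hN nM nN h z.toZFCm
  refine ⟨zf, ?_⟩
  intro x hx
  have h0 : Dfb ZFm (fun M v => ∀ z, M z → (z ⊆ v 1 → z ∈ v 0)) := by
    refine Dfb.congr (Dfb.all (R := fun _ v => v 0 ⊆ v 2 → v 0 ∈ v 1) ?_) fun M k v hv => Iff.rfl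
    exact (Dfb.subset (Tm.var 0) (Tm.var 2)).imp (Dfb.mem (Tm.var 0) (Tm.var 1))
  have hR : Dfb ZFm (fun M v => ∃ y, M y ∧ ∀ z, M z → (z ⊆ v 0 → z ∈ y)) :=
    Dfb.congr (Dfb.ex (R := fun M v => ∀ z, M z → (z ⊆ v 1 → z ∈ v 0)) h0)
      fun M k v hv => Iff.rfl
  exact trf hR zf.toZFm z.toZFCm.toZFm nN h (fun w hw => z.pow (w 0) (hw 0)) (fun _ => x)
    (fun _ => hx)

end SF.H65
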