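import Pool.Agent.H9.SF.WDefs

/-! The universe is a model of ZFC (module WC). -/

open Ordinal Cardinal Order Set
open scoped ZFSet

namespace SF.H65

open SF

/-- every set is the image of an ordinal -/
theorem exists_onto (x : V) : ∃ (α : Ordinal.{0}) (f : V), Onto f α.toZFSet x := by
  classical
  let S : Type := Shrink.{0} {y : V // y ∈ x}
  let e : S ≃ {y : V // y ∈ x} := (equivShrink _).symm
  let r : S → S → Prop := WellOrderingRel
  let f : V := ZFSet.range fun s : S => ZFSet.pair (Ordinal.typein r s).toZFSet (e s).1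
  have hf : ∀ z, z ∈ f ↔ ∃ s : S, ZFSet.pair (Ordinal.typein r s).toZFSet (e s).1 = z := by
    intro z
    exact ZFSet.mem_range
  refine ⟨Ordinal.type r, f, ⟨?_, ?_⟩, ?_⟩
  · intro z hz
    obtain ⟨s, rfl⟩ := (hf z).1 hz
    exact ZFSet.pair_mem_prod.2 ⟨Ordinal.toZFSet_mem_toZFSet_iff.2 (Ordinal.typein_lt_type r s),
      (e s).2⟩
  · intro z hz
    obtain ⟨β, hβ, rfl⟩ := Ordinal.mem_toZFSet_iff.1 hz
    obtain ⟨s, hs⟩ := Ordinal.typein_surj r hβ
    refine ⟨(e s).1, (hf _).2 ⟨s, by rw [hs]⟩, ?_⟩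
    intro w hw
    obtain ⟨s', h'⟩ := (hf _).1 hw
    obtain ⟨h1, h2⟩ := ZFSet.pair_inj.1 h'
    have h3 : Ordinal.typein r s' = Ordinal.typein r s := by
      rw [hs]
      exact Ordinal.toZFSet_injective h1
    have h4 : s' = s := Ordinal.typein_injective r h3
    rw [← h2, h4]
  · intro b hb
    refine ⟨(Ordinal.typein r (e.symm ⟨b, hb⟩)).toZFSet,
      Ordinal.toZFSet_mem_toZFSet_iff.2 (Ordinal.typein_lt_type r _),
      (hf _).2 ⟨e.symm ⟨b, hb⟩, ?_⟩⟩
    rw [Equiv.apply_symm_apply]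

theorem wc : T_WC where
  trans := fun _ _ _ _ => trivial
  pair := fun _ _ _ _ => trivial
  union := fun _ _ => trivial
  inf := trivial
  sep := fun _ _ _ _ _ => trivial
  coll := by
    intro φ v a _ _ h
    choose! y hy using h
    refine ⟨imS a y, trivial, fun x hx => ⟨y x, mem_imS.2 ⟨x, hx, rfl⟩, (hy x hx).2⟩⟩
  wo := by
    intro x _
    obtain ⟨α, f, h⟩ := exists_onto x
    exact ⟨α, f, trivial, h⟩
  pow := fun x _ => ⟨ZFSet.powerset x, trivial, fun _ _ hz => ZFSet.mem_powerset.2 hz⟩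

end SF.H65
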