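import Pool.Agent.H72.SF.XT
import Pool.Agent.H9.SF.Bas

/-! Conditions of the base forcing (module XA). -/

open Ordinal Cardinal Order Set
open scoped ZFSet

namespace SF.H65

open SF

private theorem w1lim : IsSuccLimit (Ordinal.omega.{0} 1) := isSuccLimit_omega 1

/-- the characterisation of the conditions -/
def Cnd (q : V) : Prop := ∃ α : Ordinal.{0}, α < Ordinal.omega.{0} 1 ∧ dm q = α.toZFSet ∧ Svl q ∧
    (∀ z ∈ q, IsPr z) ∧
    ∀ β T, ZFSet.pair β T ∈ q → ((T : V) : Set V).Countable ∧ ∀ x ∈ T, x ⊆ β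

private theorem rank_pair_le {β : Ordinal.{0}} {T : V} (h : ∀ x ∈ T, x ⊆ β.toZFSet) :
    (ZFSet.pair β.toZFSet T).rank < β + 1 + 1 + 1 + 1 := by
  have h1 : T.rank ≤ β + 1 := by
    rw [ZFSet.rank_le_iff]
    intro x hx
    have h2 := ZFSet.rank_mono (h x hx)
    rw [Ordinal.rank_toZFSet] at h2
    exact Order.lt_add_one_iff.2 h2
  have h0 : β ≤ β + 1 := (Order.le_succ β)
  have h3 : ∀ y ∈ ZFSet.pair β.toZFSet T, y.rank < β + 1 + 1 + 1 := by
    intro y hy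
    unfold ZFSet.pair at hy
    rw [ZFSet.mem_pair] at hy
    rw [Order.lt_add_one_iff]
    rcases hy with rfl | rfl
    · rw [ZFSet.rank_singleton, Ordinal.rank_toZFSet]
      exact Order.succ_le_of_lt (Order.lt_add_one_iff.2 h0)
    · rw [ZFSet.rank_pair, Ordinal.rank_toZFSet]
      exact max_le (Order.succ_le_of_lt (Order.lt_add_one_iff.2 h0))
        (Order.succ_le_of_lt (Order.lt_add_one_iff.2 h1))
  exact Order.lt_add_one_iff.2 (ZFSet.rank_le_iff.2 h3)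

theorem mem_P0 (q : V) : q ∈ P0 ↔ Cnd q := by
  unfold P0
  rw [ZFSet.mem_sep]
  constructor
  · rintro ⟨-, α, S, hα, hS, rfl⟩
    have hm : ∀ z, z ∈ (ZFSet.range fun β : Set.Iio α => ZFSet.pair β.1.toZFSet (S β.1) : V) ↔
        ∃ β < α, ZFSet.pair β.toZFSet (S β) = z := by
      intro z
      rw [ZFSet.mem_range]
      constructor
      · rintro ⟨β, rfl⟩
        exact ⟨β.1, β.2, rfl⟩
      · rintro ⟨β, hβ, rfl⟩
        exact ⟨⟨β, hβ⟩, rfl⟩
    refine ⟨α, hα, ?_, ?_, ?_, ?_⟩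
    · ext x
      rw [mem_dm, Ordinal.mem_toZFSet_iff]
      constructor
      · rintro ⟨y, hy⟩
        obtain ⟨β, hβ, h⟩ := (hm _).1 hy
        exact ⟨β, hβ, (ZFSet.pair_inj.1 h).1⟩
      · rintro ⟨β, hβ, rfl⟩
        exact ⟨S β, (hm _).2 ⟨β, hβ, rfl⟩⟩
    · intro x y z hy hz
      obtain ⟨β, -, h1⟩ := (hm _).1 hy
      obtain ⟨γ, -, h2⟩ := (hm _).1 hz
      obtain ⟨e1, e2⟩ := ZFSet.pair_inj.1 h1
      obtain ⟨e3, e4⟩ := ZFSet.pair_inj.1 h2
      have e5 : β = γ := Ordinal.toZFSet_injective (e1.trans e3.symm)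
      subst e5
      exact e2.symm.trans e4
    · intro z hz
      obtain ⟨β, -, rfl⟩ := (hm _).1 hz
      exact ⟨_, _, rfl⟩
    · intro b T hT
      obtain ⟨β, hβ, h⟩ := (hm _).1 hT
      obtain ⟨rfl, rfl⟩ := ZFSet.pair_inj.1 h
      exact hS β hβ
  · rintro ⟨α, hα, hd, hs, hp, hc⟩
    constructor
    · rw [ZFSet.mem_vonNeumann]
      have h1 : q.rank ≤ α + 1 + 1 + 1 := by
        rw [ZFSet.rank_le_iff]
        intro z hz
        obtain ⟨x, y, rfl⟩ := hp z hz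
        have hx : x ∈ dm q := mem_dm.2 ⟨y, hz⟩
        rw [hd, Ordinal.mem_toZFSet_iff] at hx
        obtain ⟨β, hβ, rfl⟩ := hx
        refine lt_of_lt_of_le (rank_pair_le (hc _ _ hz).2) ?_
        have h2 : β + 1 ≤ α := Order.add_one_le_of_lt hβ
        gcongr
      refine lt_of_le_of_lt h1 ?_
      exact w1lim.add_one_lt (w1lim.add_one_lt (w1lim.add_one_lt hα))
    · refine ⟨α, fun β => app q β.toZFSet, hα, ?_, ?_⟩
      · intro β hβ
        have hb : β.toZFSet ∈ dm q := by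
          rw [hd]
          exact Ordinal.toZFSet_mem_toZFSet_iff.2 hβ
        obtain ⟨y, hy⟩ := mem_dm.1 hb
        have h2 : app q β.toZFSet = y := app_eq hs hy
        show ((app q β.toZFSet : V) : Set V).Countable ∧ ∀ x ∈ app q β.toZFSet, x ⊆ β.toZFSet
        rw [h2]
        exact hc _ _ hy
      · ext z
        rw [ZFSet.mem_range]
        constructor
        · intro hz
          obtain ⟨x, y, rfl⟩ := hp z hz
          have hx : x ∈ dm q := mem_dm.2 ⟨y, hz⟩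
          rw [hd, Ordinal.mem_toZFSet_iff] at hx
          obtain ⟨β, hβ, rfl⟩ := hx
          refine ⟨⟨β, hβ⟩, ?_⟩
          show ZFSet.pair β.toZFSet (app q β.toZFSet) = ZFSet.pair β.toZFSet y
          rw [app_eq hs hz]
        · rintro ⟨⟨β, hβ⟩, rfl⟩
          have hb : β.toZFSet ∈ dm q := by
            rw [hd]
            exact Ordinal.toZFSet_mem_toZFSet_iff.2 hβ
          obtain ⟨y, hy⟩ := mem_dm.1 hb
          show ZFSet.pair β.toZFSet (app q β.toZFSet) ∈ q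
          rw [app_eq hs hy]
          exact hy

private theorem xa2 : (∅ : V) ∈ P0 := by
  rw [mem_P0]
  refine ⟨0, omega0_lt_omega_one.bot_lt, ?_, ?_, ?_, ?_⟩
  · rw [Ordinal.toZFSet_zero]
    ext x
    rw [mem_dm]
    constructor
    · rintro ⟨y, hy⟩
      exact absurd hy (ZFSet.notMem_empty _)
    · intro h
      exact absurd h (ZFSet.notMem_empty _)
  · intro x y z hy
    exact absurd hy (ZFSet.notMem_empty _)
  · intro z hz
    exact absurd hz (ZFSet.notMem_empty _)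
  · intro b T h
    exact absurd h (ZFSet.notMem_empty _)

private theorem sub_of_dm {p q r : V} (hp : ∀ z ∈ p, IsPr z) (hr : Svl r) (hpr : p ⊆ r)
    (hqr : q ⊆ r) (hd : dm p ⊆ dm q) : p ⊆ q := by
  intro z hz
  obtain ⟨x, y, rfl⟩ := hp z hz
  obtain ⟨y', hy'⟩ := mem_dm.1 (hd (mem_dm.2 ⟨y, hz⟩))
  have h1 := hr x y y' (hpr hz) (hqr hy')
  rw [h1]
  exact hy'

private theorem xa3 : ∀ p ∈ P0, ∀ q ∈ P0, ∀ r ∈ P0, p ⊆ r → q ⊆ r → p ⊆ q ∨ q ⊆ p := by
  intro p hp q hq r hr hpr hqr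
  obtain ⟨α, -, hd, -, hpp, -⟩ := (mem_P0 p).1 hp
  obtain ⟨β, -, hd', -, hqp, -⟩ := (mem_P0 q).1 hq
  obtain ⟨γ, -, -, hs, -, -⟩ := (mem_P0 r).1 hr
  rcases le_total α β with h | h
  · left
    refine sub_of_dm hpp hs hpr hqr ?_
    rw [hd, hd']
    exact Ordinal.toZFSet_subset_toZFSet_iff.2 h
  · right
    refine sub_of_dm hqp hs hqr hpr ?_
    rw [hd, hd']
    exact Ordinal.toZFSet_subset_toZFSet_iff.2 h

private theorem xa4 : ∀ F : V, (F : Set V).Countable → F ⊆ P0 →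
    (∀ p ∈ F, ∀ q ∈ F, p ⊆ q ∨ q ⊆ p) → (⋃₀ F : ZFSet) ∈ P0 := by
  intro F hF hFP hch
  have : Countable {p : V // p ∈ F} := hF
  have h1 : ∀ p : {p : V // p ∈ F}, Cnd p.1 := fun p => (mem_P0 _).1 (hFP p.2)
  choose a ha hd hs hp hc using h1
  rw [mem_P0]
  refine ⟨⨆ p, a p, Ordinal.iSup_lt_omega_one ha, ?_, ?_, ?_, ?_⟩
  · ext x
    rw [mem_dm, Ordinal.mem_toZFSet_iff]
    constructor
    · rintro ⟨y, hy⟩
      obtain ⟨p, hpF, hy⟩ := ZFSet.mem_sUnion.1 hy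
      have hx : x ∈ dm p := mem_dm.2 ⟨y, hy⟩
      have hd' := hd ⟨p, hpF⟩
      rw [show dm p = _ from hd', Ordinal.mem_toZFSet_iff] at hx
      obtain ⟨β, hβ, rfl⟩ := hx
      exact ⟨β, lt_of_lt_of_le hβ (Ordinal.le_iSup a ⟨p, hpF⟩), rfl⟩
    · rintro ⟨β, hβ, rfl⟩
      obtain ⟨p, hp1⟩ := Ordinal.lt_iSup_iff.1 hβ
      have hx : β.toZFSet ∈ dm p.1 := by
        rw [hd p]
        exact Ordinal.toZFSet_mem_toZFSet_iff.2 hp1
      obtain ⟨y, hy⟩ := mem_dm.1 hx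
      exact ⟨y, ZFSet.mem_sUnion.2 ⟨p.1, p.2, hy⟩⟩
  · intro x y z hy hz
    obtain ⟨p, hpF, hy⟩ := ZFSet.mem_sUnion.1 hy
    obtain ⟨q, hqF, hz⟩ := ZFSet.mem_sUnion.1 hz
    rcases hch p hpF q hqF with h | h
    · exact hs ⟨q, hqF⟩ x y z (h hy) hz
    · exact hs ⟨p, hpF⟩ x y z hy (h hz)
  · intro z hz
    obtain ⟨p, hpF, hz⟩ := ZFSet.mem_sUnion.1 hz
    exact hp ⟨p, hpF⟩ z hz
  · intro b T hT
    obtain ⟨p, hpF, hz⟩ := ZFSet.mem_sUnion.1 hT
    exact hc ⟨p, hpF⟩ b T hz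

private theorem xa5 : ∀ q ∈ P0, ∀ α : Ordinal.{0}, dm q = α.toZFSet → ∀ T : V,
    (T : Set V).Countable → (∀ x ∈ T, x ⊆ α.toZFSet) →
    insert (ZFSet.pair α.toZFSet T) q ∈ P0 := by
  intro q hq α hα T hT hx
  obtain ⟨β, hβ, hd, hs, hp, hc⟩ := (mem_P0 q).1 hq
  have e : β = α := Ordinal.toZFSet_injective (hd.symm.trans hα)
  subst e
  rw [mem_P0]
  refine ⟨β + 1, w1lim.add_one_lt hβ, ?_, ?_, ?_, ?_⟩
  · ext x
    rw [mem_dm, Ordinal.toZFSet_add_one, ZFSet.mem_insert_iff]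
    constructor
    · rintro ⟨y, hy⟩
      rcases ZFSet.mem_insert_iff.1 hy with h | h
      · exact Or.inl (ZFSet.pair_inj.1 h).1
      · right
        rw [← hd]
        exact mem_dm.2 ⟨y, h⟩
    · rintro (rfl | h)
      · exact ⟨T, ZFSet.mem_insert_iff.2 (Or.inl rfl)⟩
      · rw [← hd] at h
        obtain ⟨y, hy⟩ := mem_dm.1 h
        exact ⟨y, ZFSet.mem_insert_iff.2 (Or.inr hy)⟩
  · have hno : ∀ y, ZFSet.pair β.toZFSet y ∉ q := by
      intro y hy
      have h1 : β.toZFSet ∈ dm q := mem_dm.2 ⟨y, hy⟩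
      rw [hd] at h1
      exact ZFSet.mem_irrefl _ h1
    intro x y z hy hz
    rcases ZFSet.mem_insert_iff.1 hy with h | h <;> rcases ZFSet.mem_insert_iff.1 hz with h' | h'
    · rw [(ZFSet.pair_inj.1 h).2, (ZFSet.pair_inj.1 h').2]
    · rw [(ZFSet.pair_inj.1 h).1] at h'
      exact absurd h' (hno _)
    · rw [(ZFSet.pair_inj.1 h').1] at h
      exact absurd h (hno _)
    · exact hs x y z h h'
  · intro z hz
    rcases ZFSet.mem_insert_iff.1 hz with h | h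
    · exact ⟨_, _, h⟩
    · exact hp z h
  · intro b S hS
    rcases ZFSet.mem_insert_iff.1 hS with h | h
    · obtain ⟨rfl, rfl⟩ := ZFSet.pair_inj.1 h
      exact ⟨hT, hx⟩
    · exact hc b S h

private theorem xa6 : ∀ q ∈ P0, ∀ α : Ordinal.{0}, α < Ordinal.omega.{0} 1 →
    ∃ q' ∈ P0, q ⊆ q' ∧ α.toZFSet ∈ dm q' := by
  classical
  intro q hq α hα
  obtain ⟨β, hβ, hd, hs, hp, hc⟩ := (mem_P0 q).1 hq
  let F : V → V := fun x => if x ∈ dm q then app q x else ∅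
  let D : V := (max (α + 1) β).toZFSet
  refine ⟨resS D F, ?_, ?_, ?_⟩
  · rw [mem_P0]
    refine ⟨max (α + 1) β, max_lt (w1lim.add_one_lt hα) hβ, dm_resS D F, svl_resS D F, ?_, ?_⟩
    · intro z hz
      obtain ⟨x, -, rfl⟩ := mem_resS.1 hz
      exact ⟨_, _, rfl⟩
    · intro b T hT
      obtain ⟨-, h2⟩ := pair_mem_resS.1 hT
      by_cases hb : b ∈ dm q
      · obtain ⟨y, hy⟩ := mem_dm.1 hb
        have h3 : F b = app q b := if_pos hb
        rw [h3, app_eq hs hy] at h2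
        rw [h2]
        exact hc b y hy
      · have h3 : F b = ∅ := if_neg hb
        rw [h3] at h2
        subst h2
        refine ⟨?_, fun x hx => absurd hx (ZFSet.notMem_empty _)⟩
        have : ((∅ : V) : Set V) = ∅ := by
          ext x
          exact iff_of_false (ZFSet.notMem_empty x) (Set.notMem_empty x)
        rw [this]
        exact Set.countable_empty
  · intro z hz
    obtain ⟨x, y, rfl⟩ := hp z hz
    have hx : x ∈ dm q := mem_dm.2 ⟨y, hz⟩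
    refine pair_mem_resS.2 ⟨?_, ?_⟩
    · rw [hd] at hx
      exact Ordinal.toZFSet_subset_toZFSet_iff.2 (le_max_right _ _) hx
    · show y = if x ∈ dm q then app q x else ∅
      rw [if_pos hx, app_eq hs hz]
  · rw [dm_resS]
    exact Ordinal.toZFSet_mem_toZFSet_iff.2 (lt_of_lt_of_le (Order.lt_add_one_iff.2 le_rfl)
      (le_max_left _ _))

theorem xa : T_XA := ⟨mem_P0, xa2, xa3, xa4, xa5, xa6⟩

end SF.H65
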