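import Pool.Agent.H72.SF.XT
import Pool.Agent.H9.SF.Bas

/-! An elementary map is a map with values in an algebra (module XE). -/

open Ordinal Cardinal Order Set
open scoped ZFSet

namespace SF.H65

open SF

theorem xe : T_XE := by
  classical
  intro B _ N' N f hf b
  have hne : ∀ x y, (if x ∈ N' ∧ y = app f x then b else (⊥ : El B)) ≠ ⊥ →
      x ∈ N' ∧ y = app f x := by
    intro x y h
    by_contra hc
    exact h (if_neg hc)
  refine ⟨fun x y => if x ∈ N' ∧ y = app f x then b else ⊥, ⟨?_, ?_, ?_, ?_⟩, ?_, hne⟩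
  · intro x hx
    refine le_antisymm (iSup_le fun y => ?_) ?_
    · show (if x ∈ N' ∧ y = app f x then b else (⊥ : El B)) ≤ b
      split_ifs
      · exact le_rfl
      · exact bot_le
    · refine le_iSup_of_le (app f x) ?_
      show b ≤ (if x ∈ N' ∧ app f x = app f x then b else (⊥ : El B))
      rw [if_pos ⟨hx, rfl⟩]
  · intro x y y' hy
    show (if x ∈ N' ∧ y = app f x then b else (⊥ : El B)) ⊓
      (if x ∈ N' ∧ y' = app f x then b else (⊥ : El B)) = ⊥
    by_cases h1 : x ∈ N' ∧ y = app f x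
    · rw [if_neg (c := x ∈ N' ∧ y' = app f x) (fun h2 => hy (h1.2.trans h2.2.symm)), inf_bot_eq]
    · rw [if_neg h1, bot_inf_eq]
  · intro x y h
    obtain ⟨h1, rfl⟩ := hne x y h
    exact ⟨h1, app_mem hf.func h1⟩
  · intro s hs v hv φ
    have h1 : ∀ i, (v i).1 ∈ N' ∧ (v i).2 = app f (v i).1 := by
      intro i
      refine hne _ _ fun h => hs ?_
      have h2 := Finset.inf_le (f := fun q : V × V =>
        (if q.1 ∈ N' ∧ q.2 = app f q.1 then b else (⊥ : El B))) (hv i)
      exact le_bot_iff.1 (h2.trans (le_of_eq h))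
    have h2 := hf.el φ (fun i => (v i).1) fun i => (h1 i).1
    have h3 : (fun i => (v i).2) = fun i => app f (v i).1 := funext fun i => (h1 i).2
    rw [h2, h3]
  · intro x hx
    exact if_pos ⟨hx, rfl⟩

end SF.H65
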