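import Pool.Agent.H72.SF.XT
import Pool.Agent.H9.SF.Bas

/-! The club shooting is good (module XM). -/

set_option linter.unusedVariables false

open Ordinal Cardinal Order Set
open scoped ZFSet

namespace SF.H65

open SF

/-! ### the facts which are transferred -/

section facts

def FA (Q B H : V) : Prop := ∀ z ∈ Q, IsPr z ∧ fst z ∈ B ∧ snd z ∈ H
def FK (Q K Z : V) : Prop := Svl K ∧ ∀ z ∈ Q, ∃ u ∈ Z, ZFSet.pair z u ∈ K
def FG (B Z g : V) : Prop := Svl g ∧ ∀ x ∈ B, ∃ y ∈ Z, ZFSet.pair x y ∈ g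
def FD (Q K Z g : V) : Prop := ∀ z ∈ Q, ∀ u ∈ Z, ∀ y ∈ Z, ZFSet.pair z u ∈ K →
  ZFSet.pair (fst z) y ∈ g → u ⊆ y
def FE (Q K Z : V) : Prop := ∀ z ∈ Q, ∀ z2 ∈ Q, ∀ u ∈ Z, ∀ u2 ∈ Z, ZFSet.pair z u ∈ K →
  ZFSet.pair z2 u2 ∈ K → (u ∩ u2).Nonempty → EEx (snd z) (snd z2) ∨ EEx (snd z2) (snd z)
def FF (Q K Z w : V) : Prop := ∀ β ∈ w, ∀ x ∈ Z, x.Nonempty → ∃ d ∈ Z, d.Nonempty ∧ d ⊆ x ∧
  ∃ z ∈ Q, ZFSet.pair z d ∈ K ∧ ∃ y ∈ snd z, β ∈ y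
def FX (Q K Z : V) : Prop := ∀ x ∈ Z, ∀ y ∈ Z, y.Nonempty → ∃ d ∈ Z, d.Nonempty ∧ d ⊆ y ∧
  ∃ z ∈ Q, ZFSet.pair z d ∈ K ∧ (d ⊆ x ∨ ¬ (d ∩ x).Nonempty)
def FI (Q B a : V) : Prop := ∀ z ∈ Q, ∀ x ∈ snd z, ∃ y ∈ B, ZFSet.pair x y ∈ a ∧ fst z ⊆ y
def FJ (B Z g : V) : Prop := ∀ a ∈ B, ∀ a2 ∈ B, ∀ u ∈ Z, ∀ u2 ∈ Z, ZFSet.pair a u ∈ g →
  ZFSet.pair a2 u2 ∈ g → a ⊆ a2 → u ⊆ u2
def FS (s : V) : Prop := Svl s
def FR (w B Z g rr cr kr : V) : Prop := ∀ β ∈ w, ∃ x ∈ B, ∃ u ∈ Z, ∃ x2 ∈ B, ∃ u2 ∈ Z,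
  ZFSet.pair β x ∈ rr ∧ ZFSet.pair x u ∈ g ∧ ZFSet.pair β u ∈ kr ∧ ZFSet.pair β x2 ∈ cr ∧
  ZFSet.pair x2 u2 ∈ g ∧ ∀ d ∈ Z, ¬ (d ∩ u).Nonempty → d ⊆ u2

theorem dEndE {f g : (V → Prop) → (ℕ → V) → V} (hf : Tm ZFm f) (hg : Tm ZFm g) :
    Dfb ZFm (fun M v => EEx (f M v) (g M v)) := by
  refine Dfb.at2 (P := fun _ x y => EEx x y) ?_ hf hg
  have h1 := (Dfb.subset (Tm.var 1) (Tm.var 0)).and (Dfb.ball ktr_zfm (Tm.var 0)
    ((Dfb.bex ktr_zfm (Tm.var 2) ((Dfb.mem (Tm.var 1) (Tm.var 0)).or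
      (Dfb.eq (Tm.var 1) (Tm.var 0)))).imp (Dfb.mem (Tm.var 0) (Tm.var 2))))
  exact h1.congr fun M k v hv => Iff.rfl

theorem dFA : Dfb ZFm (fun _ v => FA (v 0) (v 1) (v 2)) := by
  have h1 := Dfb.ball ktr_zfm (Tm.var 0) ((Dfb.isPr (Tm.var 0)).and
    ((Dfb.mem (Tm.fst (Tm.var 0)) (Tm.var 2)).and (Dfb.mem (Tm.snd (Tm.var 0)) (Tm.var 3))))
  exact h1.congr fun M k v hv => Iff.rfl

theorem dFK : Dfb ZFm (fun _ v => FK (v 0) (v 1) (v 2)) := by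
  have h1 := (Dfb.svl (Tm.var 1)).and (Dfb.ball ktr_zfm (Tm.var 0) (Dfb.bex ktr_zfm (Tm.var 3)
    (Dfb.pairMem (Tm.var 1) (Tm.var 0) (Tm.var 3))))
  exact h1.congr fun M k v hv => Iff.rfl

theorem dFG : Dfb ZFm (fun _ v => FG (v 0) (v 1) (v 2)) := by
  have h1 := (Dfb.svl (Tm.var 2)).and (Dfb.ball ktr_zfm (Tm.var 0) (Dfb.bex ktr_zfm (Tm.var 2)
    (Dfb.pairMem (Tm.var 1) (Tm.var 0) (Tm.var 4))))
  exact h1.congr fun M k v hv => Iff.rfl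

/-- `Q K Z g` = `0 1 2 3` -/
theorem dFD : Dfb ZFm (fun _ v => FD (v 0) (v 1) (v 2) (v 3)) := by
  have h1 := Dfb.ball ktr_zfm (Tm.var 0) (Dfb.ball ktr_zfm (Tm.var 3) (Dfb.ball ktr_zfm (Tm.var 4)
    ((Dfb.pairMem (Tm.var 2) (Tm.var 1) (Tm.var 4)).imp
      ((Dfb.pairMem (Tm.fst (Tm.var 2)) (Tm.var 0) (Tm.var 6)).imp
        (Dfb.subset (Tm.var 1) (Tm.var 0))))))
  exact h1.congr fun M k v hv => Iff.rfl

/-- `Q K Z` = `0 1 2` -/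
theorem dFE : Dfb ZFm (fun _ v => FE (v 0) (v 1) (v 2)) := by
  have h1 := Dfb.ball ktr_zfm (Tm.var 0) (Dfb.ball ktr_zfm (Tm.var 1) (Dfb.ball ktr_zfm (Tm.var 4)
    (Dfb.ball ktr_zfm (Tm.var 5) ((Dfb.pairMem (Tm.var 3) (Tm.var 1) (Tm.var 5)).imp
      ((Dfb.pairMem (Tm.var 2) (Tm.var 0) (Tm.var 5)).imp
        ((Dfb.ne (Tm.inter (Tm.var 1) (Tm.var 0))).imp
          ((dEndE (Tm.snd (Tm.var 3)) (Tm.snd (Tm.var 2))).or
            (dEndE (Tm.snd (Tm.var 2)) (Tm.snd (Tm.var 3))))))))))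
  exact h1.congr fun M k v hv => Iff.rfl

/-- `Q K Z w` = `0 1 2 3` -/
theorem dFF : Dfb ZFm (fun _ v => FF (v 0) (v 1) (v 2) (v 3)) := by
  have h1 := Dfb.ball ktr_zfm (Tm.var 3) (Dfb.ball ktr_zfm (Tm.var 3)
    ((Dfb.ne (Tm.var 0)).imp (Dfb.bex ktr_zfm (Tm.var 4) ((Dfb.ne (Tm.var 0)).and
      ((Dfb.subset (Tm.var 0) (Tm.var 1)).and (Dfb.bex ktr_zfm (Tm.var 3)
        ((Dfb.pairMem (Tm.var 0) (Tm.var 1) (Tm.var 5)).and
          (Dfb.bex ktr_zfm (Tm.snd (Tm.var 0)) (Dfb.mem (Tm.var 4) (Tm.var 0))))))))))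
  exact h1.congr fun M k v hv => Iff.rfl

/-- `Q K Z` = `0 1 2` -/
theorem dFX : Dfb ZFm (fun _ v => FX (v 0) (v 1) (v 2)) := by
  have h1 := Dfb.ball ktr_zfm (Tm.var 2) (Dfb.ball ktr_zfm (Tm.var 3)
    ((Dfb.ne (Tm.var 0)).imp (Dfb.bex ktr_zfm (Tm.var 4) ((Dfb.ne (Tm.var 0)).and
      ((Dfb.subset (Tm.var 0) (Tm.var 1)).and (Dfb.bex ktr_zfm (Tm.var 3)
        ((Dfb.pairMem (Tm.var 0) (Tm.var 1) (Tm.var 5)).and
          ((Dfb.subset (Tm.var 1) (Tm.var 3)).or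
            (Dfb.ne (Tm.inter (Tm.var 1) (Tm.var 3))).not))))))))
  exact h1.congr fun M k v hv => Iff.rfl

/-- `Q B a` = `0 1 2` -/
theorem dFI : Dfb ZFm (fun _ v => FI (v 0) (v 1) (v 2)) := by
  have h1 := Dfb.ball ktr_zfm (Tm.var 0) (Dfb.ball ktr_zfm (Tm.snd (Tm.var 0))
    (Dfb.bex ktr_zfm (Tm.var 3) ((Dfb.pairMem (Tm.var 1) (Tm.var 0) (Tm.var 5)).and
      (Dfb.subset (Tm.fst (Tm.var 2)) (Tm.var 0)))))
  exact h1.congr fun M k v hv => Iff.rfl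

/-- `B Z g` = `0 1 2` -/
theorem dFJ : Dfb ZFm (fun _ v => FJ (v 0) (v 1) (v 2)) := by
  have h1 := Dfb.ball ktr_zfm (Tm.var 0) (Dfb.ball ktr_zfm (Tm.var 1) (Dfb.ball ktr_zfm (Tm.var 3)
    (Dfb.ball ktr_zfm (Tm.var 4) ((Dfb.pairMem (Tm.var 3) (Tm.var 1) (Tm.var 6)).imp
      ((Dfb.pairMem (Tm.var 2) (Tm.var 0) (Tm.var 6)).imp
        ((Dfb.subset (Tm.var 3) (Tm.var 2)).imp (Dfb.subset (Tm.var 1) (Tm.var 0))))))))
  exact h1.congr fun M k v hv => Iff.rfl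

theorem dFS : Dfb ZFm (fun _ v => FS (v 0)) := Dfb.svl (Tm.var 0)

/-- `w B Z g rr cr kr` = `0 1 2 3 4 5 6`; after the five quantifiers `β = 4, x = 3, u = 2,
x2 = 1, u2 = 0` -/
theorem dFR : Dfb ZFm (fun _ v => FR (v 0) (v 1) (v 2) (v 3) (v 4) (v 5) (v 6)) := by
  have h0 := Dfb.ball ktr_zfm (Tm.var 7) ((Dfb.ne (Tm.inter (Tm.var 0) (Tm.var 3))).not.imp
    (Dfb.subset (Tm.var 0) (Tm.var 1)))
  have h2 := (Dfb.pairMem (Tm.var 4) (Tm.var 3) (Tm.var 9)).and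
    ((Dfb.pairMem (Tm.var 3) (Tm.var 2) (Tm.var 8)).and
      ((Dfb.pairMem (Tm.var 4) (Tm.var 2) (Tm.var 11)).and
        ((Dfb.pairMem (Tm.var 4) (Tm.var 1) (Tm.var 10)).and
          ((Dfb.pairMem (Tm.var 1) (Tm.var 0) (Tm.var 8)).and h0))))
  have h1 := Dfb.ball ktr_zfm (Tm.var 0) (Dfb.bex ktr_zfm (Tm.var 2) (Dfb.bex ktr_zfm (Tm.var 4)
    (Dfb.bex ktr_zfm (Tm.var 4) (Dfb.bex ktr_zfm (Tm.var 6) h2))))
  exact h1.congr fun M k v hv => Iff.rfl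

/-! ### sets of the small model -/

/-- `Z Q K β` = `0 1 2 3` -/
theorem tD1 : Tm ZFm (fun _ v => (v 0).sep fun d => ∃ z ∈ v 1, ZFSet.pair z d ∈ v 2 ∧
    ∃ y ∈ snd z, v 3 ∈ y) := by
  have h1 := Dfb.bex ktr_zfm (Tm.var 2) ((Dfb.pairMem (Tm.var 0) (Tm.var 1) (Tm.var 4)).and
    (Dfb.bex ktr_zfm (Tm.snd (Tm.var 0)) (Dfb.mem (Tm.var 6) (Tm.var 0))))
  exact (Tm.sep h1 (Tm.var 0)).congr fun M k v hv => rfl

/-- `Z Q K x` = `0 1 2 3` -/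
theorem tD2 : Tm ZFm (fun _ v => (v 0).sep fun d => ∃ z ∈ v 1, ZFSet.pair z d ∈ v 2 ∧
    (d ⊆ v 3 ∨ ¬ (d ∩ v 3).Nonempty)) := by
  have h1 := Dfb.bex ktr_zfm (Tm.var 2) ((Dfb.pairMem (Tm.var 0) (Tm.var 1) (Tm.var 4)).and
    ((Dfb.subset (Tm.var 1) (Tm.var 5)).or (Dfb.ne (Tm.inter (Tm.var 1) (Tm.var 5))).not))
  exact (Tm.sep h1 (Tm.var 0)).congr fun M k v hv => rfl

end facts

/-! ### the facts in the universe -/

theorem mkEl_val {B : V} [IsCBA B] (x : El B) : mkEl B x.val = x := by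
  unfold mkEl
  rw [dif_pos x.mem]

theorem El.ne_of {B : V} [IsCBA B] {x : El B} (h : x ≠ ⊥) : x.val.Nonempty := by
  rcases ZFSet.eq_empty_or_nonempty x.val with h1 | h1
  · exfalso
    apply h
    apply El.ext
    rw [El.bot_val, h1]
  · exact h1

section univ

variable {C : BA} {r : Ordinal.{0} → El C.B} {Z : BA} {k : BMor C Z} {e : V → El Z.B}

theorem mem_Tcl {t : V} : t ∈ Tcl ↔ t ⊆ w1 ∧ Clb w1 t := by
  unfold Tcl
  rw [ZFSet.mem_sep, ZFSet.mem_powerset]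

/-- conditions of the club shooting -/
theorem mem_QC {z : V} : z ∈ QC C r ↔ (∃ b ∈ C.B, ∃ t ∈ Tcl, z = ZFSet.pair b t) ∧
    fst z ≠ ∅ ∧ fst z ⊆ (tau C r (snd z)).val := by
  unfold QC
  rw [ZFSet.mem_sep, ZFSet.mem_prod]

theorem countable_Tcl (hXB : T_XB) {t : V} (h : t ∈ Tcl) : ((t : V) : Set V).Countable := by
  obtain ⟨hT, -, hc, -, hw, -⟩ := hXB
  obtain ⟨ht, -, ⟨m, hm, hmax⟩, -⟩ := mem_Tcl.1 h
  obtain ⟨μ, hμ, rfl⟩ := Ordinal.mem_toZFSet_iff.1 (ht hm)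
  have h1 : (Order.succ μ).toZFSet ∈ w1 :=
    Ordinal.toZFSet_mem_toZFSet_iff.2 ((isSuccLimit_omega 1).succ_lt hμ)
  refine (hc _ (hw h1)).mono ?_
  intro x hx
  obtain ⟨α, -, rfl⟩ := Ordinal.mem_toZFSet_iff.1 (ht hx)
  refine Ordinal.toZFSet_mem_toZFSet_iff.2 (Order.lt_succ_iff.2 ?_)
  rcases hmax _ hx with h2 | h2
  · exact (Ordinal.toZFSet_mem_toZFSet_iff.1 h2).le
  · exact (Ordinal.toZFSet_injective h2).le

theorem uFA (hXB : T_XB) : FA (QC C r) C.B HC := by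
  intro z hz
  obtain ⟨⟨b, hb, t, ht, rfl⟩, -, -⟩ := mem_QC.1 hz
  rw [fst_pair, snd_pair]
  exact ⟨⟨b, t, rfl⟩, hb, hXB.2.1 t (countable_Tcl hXB ht) fun x hx =>
    hXB.2.2.2.2.1 ((mem_Tcl.1 ht).1 hx)⟩

/-- the function `K` -/
noncomputable def KQ (C : BA) (r : Ordinal.{0} → El C.B) : V :=
  resS (QC C r) (fun z => cl (QC C r) leQC z)

theorem ro_facts (hRS : T_RS) (C : BA) (r : Ordinal.{0} → El C.B) : ∀ p ∈ QC C r,
    cl (QC C r) leQC p ∈ RO (QC C r) leQC ∧ p ∈ cl (QC C r) leQC p ∧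
    (∀ X ∈ RO (QC C r) leQC, cl (QC C r) leQC p ⊆ X ↔ p ∈ X) := by
  intro p hp
  obtain ⟨-, -, -, -, -, -, h7, -⟩ := hRS (QC C r) leQC (fun _ _ => leQC_refl _)
    (fun _ _ _ _ _ _ h h' => leQC_trans h h')
  obtain ⟨a, b, c, d⟩ := h7 p hp
  exact ⟨a, b, fun X hX => d ⟨X, hX⟩⟩

theorem uFK (hRS : T_RS) (hS : Shot C r Z k e) : FK (QC C r) (KQ C r) Z.B := by
  refine ⟨svl_resS _ _, fun z hz => ⟨cl (QC C r) leQC z, ?_, pair_mem_resS.2 ⟨hz, rfl⟩⟩⟩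
  rw [hS.eq]
  exact (ro_facts hRS C r z hz).1

theorem mem_gr {z : V} : z ∈ k.gr ↔ ∃ x : El C.B, ZFSet.pair x.val (k x).val = z :=
  ZFSet.mem_range

theorem pair_mem_gr {x : El C.B} {y : V} : ZFSet.pair x.val y ∈ k.gr ↔ y = (k x).val := by
  rw [mem_gr]
  constructor
  · rintro ⟨x', h⟩
    obtain ⟨h1, h2⟩ := ZFSet.pair_inj.1 h
    have h3 : x' = x := El.ext h1
    rw [← h2, h3]
  · rintro rfl
    exact ⟨x, rfl⟩

theorem uFG : FG C.B Z.B k.gr := by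
  constructor
  · intro x y z hy hz
    obtain ⟨a, h1⟩ := mem_gr.1 hy
    obtain ⟨b, h2⟩ := mem_gr.1 hz
    obtain ⟨e1, e2⟩ := ZFSet.pair_inj.1 h1
    obtain ⟨e3, e4⟩ := ZFSet.pair_inj.1 h2
    have e5 : a = b := El.ext (e1.trans e3.symm)
    rw [← e2, ← e4, e5]
  · intro x hx
    exact ⟨(k ⟨x, hx⟩).val, (k ⟨x, hx⟩).mem, (pair_mem_gr (x := ⟨x, hx⟩)).2 rfl⟩

theorem QC_form {z : V} (hz : z ∈ QC C r) : ∃ (b : El C.B) (t : V), z = ZFSet.pair b.val t ∧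
    fst z = b.val ∧ snd z = t ∧ t ∈ Tcl ∧ b ≤ tau C r t := by
  obtain ⟨⟨b, hb, t, ht, rfl⟩, -, h4⟩ := mem_QC.1 hz
  rw [snd_pair, fst_pair] at h4
  exact ⟨⟨b, hb⟩, t, rfl, fst_pair _ _, snd_pair _ _, ht, El.le_iff.2 h4⟩

theorem uFD (hS : Shot C r Z k e) : FD (QC C r) (KQ C r) Z.B k.gr := by
  intro z hz u hu y hy hzu hzy
  obtain ⟨b, t, rfl, h1, h2, -⟩ := QC_form hz
  rw [h1] at hzy
  have h3 := pair_mem_gr.1 hzy
  obtain ⟨-, h4⟩ := pair_mem_resS.1 hzu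
  have h5 := (hS.cl b t hz).1
  rw [h4, ← h5, h3, El.inf_val]
  intro a ha
  exact (ZFSet.mem_inter.1 ha).1

theorem uFE (hS : Shot C r Z k e) : FE (QC C r) (KQ C r) Z.B := by
  intro z hz z2 hz2 u hu u2 hu2 hzu hzu2 hne
  obtain ⟨b, t, rfl, -, h2, hT, -⟩ := QC_form hz
  obtain ⟨b2, t2, rfl, -, h2', hT2, -⟩ := QC_form hz2
  rw [h2, h2']
  obtain ⟨-, h4⟩ := pair_mem_resS.1 hzu
  obtain ⟨-, h4'⟩ := pair_mem_resS.1 hzu2
  have h5 := (hS.cl b t hz).1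
  have h5' := (hS.cl b2 t2 hz2).1
  rw [h4, h4', ← h5, ← h5', El.inf_val, El.inf_val] at hne
  obtain ⟨a, ha⟩ := hne
  obtain ⟨ha1, ha2⟩ := ZFSet.mem_inter.1 ha
  refine hS.cmp t hT t2 hT2 ?_
  intro h
  have h6 : a ∈ (e t ⊓ e t2).val := by
    rw [El.inf_val]
    exact ZFSet.mem_inter.2 ⟨(ZFSet.mem_inter.1 ha1).2, (ZFSet.mem_inter.1 ha2).2⟩
  rw [h, El.bot_val] at h6
  exact ZFSet.notMem_empty _ h6

theorem uFF (hRS : T_RS) (hXL : T_XL) (hC : Good (bas C)) (hS : Shot C r Z k e) :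
    FF (QC C r) (KQ C r) Z.B w1 := by
  intro β hβ x hx hne
  obtain ⟨b, hb, rfl⟩ := Ordinal.mem_toZFSet_iff.1 hβ
  rw [hS.eq] at hx ⊢
  obtain ⟨q, hq⟩ := hne
  obtain ⟨x1, x2, x3⟩ := mem_RO.1 hx
  obtain ⟨z', hz', hle, γ, hγ, hbγ⟩ := hXL C hC r q (x1 hq) b hb
  obtain ⟨c1, c2, c3⟩ := ro_facts hRS C r z' hz'
  refine ⟨cl (QC C r) leQC z', c1, ⟨z', c2⟩, (c3 x hx).2 (x2 q hq z' hz' hle), z', hz',
    pair_mem_resS.2 ⟨hz', rfl⟩, γ, hγ, hbγ⟩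

theorem uFX (hRS : T_RS) (hS : Shot C r Z k e) : FX (QC C r) (KQ C r) Z.B := by
  intro x hx y hy hne
  rw [hS.eq] at hx hy ⊢
  obtain ⟨q, hq⟩ := hne
  obtain ⟨x1, x2, x3⟩ := mem_RO.1 hx
  obtain ⟨y1, y2, y3⟩ := mem_RO.1 hy
  have hqQ := y1 hq
  by_cases h : ∃ p ∈ QC C r, leQC p q ∧ p ∈ x
  · obtain ⟨p, hp, hpq, hpx⟩ := h
    obtain ⟨c1, c2, c3⟩ := ro_facts hRS C r p hp
    exact ⟨cl (QC C r) leQC p, c1, ⟨p, c2⟩, (c3 y hy).2 (y2 q hq p hp hpq), p, hp,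
      pair_mem_resS.2 ⟨hp, rfl⟩, Or.inl ((c3 x hx).2 hpx)⟩
  · obtain ⟨c1, c2, c3⟩ := ro_facts hRS C r q hqQ
    refine ⟨cl (QC C r) leQC q, c1, ⟨q, c2⟩, (c3 y hy).2 hq, q, hqQ,
      pair_mem_resS.2 ⟨hqQ, rfl⟩, Or.inr ?_⟩
    rintro ⟨s, hs⟩
    obtain ⟨hs1, hs2⟩ := ZFSet.mem_inter.1 hs
    obtain ⟨hsQ, hs3⟩ := ZFSet.mem_sep.1 hs1
    obtain ⟨t, ht, hts, htq⟩ := hs3 s hsQ (leQC_refl s)
    exact h ⟨t, ht, htq, x2 s hs2 t ht hts⟩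

/-- a function on `ω₁` -/
noncomputable def fnw (f : V → V) : V := resS w1 f

theorem uFS (f : V → V) : FS (fnw f) := svl_resS w1 f

theorem uFI : FI (QC C r) C.B (fnw fun x => (gval C r x.rank).val) := by
  intro z hz x hx
  obtain ⟨b, t, rfl, h1, h2, ht, hb⟩ := QC_form hz
  rw [h2] at hx
  rw [h1]
  refine ⟨(gval C r x.rank).val, (gval C r x.rank).mem,
    pair_mem_resS.2 ⟨(mem_Tcl.1 ht).1 hx, rfl⟩, ?_⟩
  refine El.le_iff.1 (hb.trans ?_)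
  obtain ⟨α, -, rfl⟩ := Ordinal.mem_toZFSet_iff.1 ((mem_Tcl.1 ht).1 hx)
  rw [Ordinal.rank_toZFSet]
  exact iInf_le (fun δ : {δ : Ordinal.{0} // δ.toZFSet ∈ t} => gval C r δ.1) ⟨α, hx⟩

theorem uFJ (hMB : T_MB) : FJ C.B Z.B k.gr := by
  intro a ha a2 ha2 u hu u2 hu2 h1 h2 h3
  have e1 := (pair_mem_gr (x := (⟨a, ha⟩ : El C.B))).1 h1
  have e2 := (pair_mem_gr (x := (⟨a2, ha2⟩ : El C.B))).1 h2
  rw [e1, e2]
  exact El.le_iff.1 ((hMB C.B Z.B k.toMor).1 _ _ (El.le_iff.2 h3))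

theorem uFR (hMB : T_MB) (hS : Shot C r Z k e) : FR w1 C.B Z.B k.gr
    (fnw fun x => (r x.rank).val) (fnw fun x => ((r x.rank)ᶜ).val)
    (fnw fun x => (k (r x.rank)).val) := by
  intro x hx
  generalize hβ : x.rank = β
  refine ⟨(r β).val, (r β).mem, (k (r β)).val, (k (r β)).mem, ((r β)ᶜ).val, ((r β)ᶜ).mem,
    (k (r β)ᶜ).val, (k (r β)ᶜ).mem, pair_mem_resS.2 ⟨hx, by rw [hβ]⟩, pair_mem_gr.2 rfl,
    pair_mem_resS.2 ⟨hx, by rw [hβ]⟩, pair_mem_resS.2 ⟨hx, by rw [hβ]⟩, pair_mem_gr.2 rfl, ?_⟩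
  intro d hd hn
  have h1 : (k (r β)ᶜ : El Z.B) = (k (r β))ᶜ := by
    have h2 := (hMB C.B Z.B k.toMor).2.2.2.1 (r β)
    have h3 : (k.toMor ⊤ : El Z.B) = ⊤ := hS.top
    rw [h3, inf_top_eq] at h2
    exact h2
  rw [h1]
  have h4 : (⟨d, hd⟩ : El Z.B) ⊓ k (r β) = ⊥ := by
    apply El.ext
    rw [El.inf_val, El.bot_val]
    exact (ZFSet.eq_empty_or_nonempty _).resolve_right hn
  exact El.le_iff.1 (le_compl_iff_disjoint_right.2 (disjoint_iff.2 h4))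

end univ

/-! ### the frame -/

section frame

theorem bmap_le_b {N' N B : V} [IsCBA B] {b : El B} {σ : V → V → El B} (map : BMap N' N b σ)
    (x y : V) : σ x y ≤ b := by
  by_cases h : σ x y = ⊥
  · rw [h]
    exact bot_le
  · rw [← map.tot x (map.dom x y h).1]
    exact le_iSup (fun y => σ x y) y

/-- transfer of a relation of known elements -/
theorem trL (hTR : T_TR) {B N' N : V} [IsCBA B] {b : El B} {σ : V → V → El B} (np : NP N' N)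
    (map : BMap N' N b σ) (ne : b ≠ ⊥) {R : (ℕ → V) → Prop} (hR : Dfb ZFm (fun _ v => R v))
    (l : List (V × V)) (d : V × V) (hl : List.Forall (fun q => σ q.1 q.2 = b) (d :: l))
    (h2 : R (fun i => (l.getD i d).2)) : R (fun i => (l.getD i d).1) := by
  classical
  have hm : ∀ i, l.getD i d ∈ (d :: l).toFinset := by
    intro i
    rw [List.mem_toFinset, List.mem_cons]
    by_cases hi : i < l.length
    · right
      rw [List.getD_eq_getElem _ _ hi]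
      exact List.getElem_mem hi
    · left
      exact List.getD_eq_default _ _ (by omega)
  have hl' := List.forall_iff_forall_mem.1 hl
  have hs : ((d :: l).toFinset.inf fun q => σ q.1 q.2) ≠ ⊥ := by
    intro h0
    apply ne
    rw [← le_bot_iff, ← h0]
    refine Finset.le_inf fun q hq => ?_
    rw [hl' q (List.mem_toFinset.1 hq)]
  exact (hTR (fun _ v => R v) hR B N' N b σ np map _ hs _ hm).2 h2

theorem xm_core (hXB : T_XB) (hXL : T_XL) (hAM : T_AM) (hAP : T_AP) (hAF : T_AF) (hAU : T_AU)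
    (hAH : T_AH) (hTR : T_TR) (hZN : T_ZN) (hMB : T_MB) (hRS : T_RS)
    {C : BA} {r : Ordinal.{0} → El C.B} {Z : BA} {k : BMor C Z} {e : V → El Z.B}
    (hC : Good (bas C))
    (hS : Shot C r Z k e) {N' N : V} {b : El C.B} {σ : V → V → El C.B}
    {w B' C' h' G' H' Q' K' ap' rr' cr' kr' : V} (np : NP N' N) (ne : b ≠ ⊥)
    (map : BMap N' N b σ) (kw : σ w w1 = b) (kB : σ B' C.B = b) (kC : σ C' Z.B = b)
    (kh : σ h' k.gr = b) (gen : NGen N' C' G')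
    (com : ∀ x y, ZFSet.pair x y ∈ h' → y ∈ G' → ∀ z, σ x z ≤ mkEl C.B z)
    (sc : ∀ r ∈ N', b ≤ C.g (acc w (ev w r G'))) (kH : σ H' HC = b) (kQ : σ Q' (QC C r) = b)
    (kK : σ K' (KQ C r) = b) (kap : σ ap' (fnw fun x => (gval C r x.rank).val) = b)
    (krr : σ rr' (fnw fun x => (r x.rank).val) = b)
    (kcr : σ cr' (fnw fun x => ((r x.rank)ᶜ).val) = b)
    (kkr : σ kr' (fnw fun x => (k (r x.rank)).val) = b) :
    ∃ c : El Z.B, c ≤ k b ∧ k.proj c = b ∧ ∀ x ∈ G', ∀ z, k (σ x z) ⊓ c ≤ mkEl Z.B z := by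
  classical
  have leb := bmap_le_b map
  have zf : ZFm (· ∈ N') := (hZN C.B N' N b σ np map ne).toZFm
  obtain ⟨ap1, ap2, ap3, hNt, -, -⟩ := hAP C.B N' N b σ np map ne
  have am := hAM C.B N' N b σ np map
  have au := hAU C.B N' N b σ np map ne
  obtain ⟨hHt, hHk, hHw⟩ := hAH C.B N' N b σ np map ne H' kH
  obtain ⟨δ, hwδ, hωδ, hδ1, hδl, hδk, hHr⟩ := hHw w kw
  subst hwδ
  have inN : ∀ {x y : V}, σ x y = b → x ∈ N' := fun h => (au _ _ h).1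
  -- the transferred facts
  have fa : FA Q' B' H' := trL hTR np map ne dFA
    [(Q', QC C r), (B', C.B), (H', HC)] (Q', QC C r) ⟨kQ, kQ, kB, kH⟩ (uFA hXB)
  have fk : FK Q' K' C' := trL hTR np map ne dFK
    [(Q', QC C r), (K', KQ C r), (C', Z.B)] (Q', QC C r) ⟨kQ, kQ, kK, kC⟩ (uFK hRS hS)
  have fg : FG B' C' h' := trL hTR np map ne dFG
    [(B', C.B), (C', Z.B), (h', k.gr)] (B', C.B) ⟨kB, kB, kC, kh⟩ uFG
  have fd : FD Q' K' C' h' := trL hTR np map ne dFD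
    [(Q', QC C r), (K', KQ C r), (C', Z.B), (h', k.gr)] (Q', QC C r) ⟨kQ, kQ, kK, kC, kh⟩ (uFD hS)
  have fe : FE Q' K' C' := trL hTR np map ne dFE
    [(Q', QC C r), (K', KQ C r), (C', Z.B)] (Q', QC C r) ⟨kQ, kQ, kK, kC⟩ (uFE hS)
  have ff : FF Q' K' C' δ.toZFSet := trL hTR np map ne dFF
    [(Q', QC C r), (K', KQ C r), (C', Z.B), (δ.toZFSet, w1)] (Q', QC C r)
    ⟨kQ, kQ, kK, kC, kw⟩ (uFF hRS hXL hC hS)
  have fx : FX Q' K' C' := trL hTR np map ne dFX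
    [(Q', QC C r), (K', KQ C r), (C', Z.B)] (Q', QC C r) ⟨kQ, kQ, kK, kC⟩ (uFX hRS hS)
  have fi : FI Q' B' ap' := trL hTR np map ne dFI
    [(Q', QC C r), (B', C.B), (ap', fnw fun x => (gval C r x.rank).val)] (Q', QC C r)
    ⟨kQ, kQ, kB, kap⟩ uFI
  have fj : FJ B' C' h' := trL hTR np map ne dFJ
    [(B', C.B), (C', Z.B), (h', k.gr)] (B', C.B) ⟨kB, kB, kC, kh⟩ (uFJ hMB)
  have fs : FS kr' := trL (R := fun v => FS (v 0)) hTR np map ne dFS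
    [(kr', fnw fun x => (k (r x.rank)).val)] (kr', fnw fun x => (k (r x.rank)).val)
    ⟨kkr, kkr⟩ (uFS (fun x => (k (r x.rank)).val))
  have fr : FR δ.toZFSet B' C' h' rr' cr' kr' := trL hTR np map ne dFR
    [(δ.toZFSet, w1), (B', C.B), (C', Z.B), (h', k.gr), (rr', fnw fun x => (r x.rank).val),
      (cr', fnw fun x => ((r x.rank)ᶜ).val), (kr', fnw fun x => (k (r x.rank)).val)]
    (δ.toZFSet, w1)
    ⟨kw, kw, kB, kC, kh, krr, kcr, kkr⟩ (uFR hMB hS)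
  -- conditions of the small model
  let GQ : V → Prop := fun z => z ∈ Q' ∧ ∃ u ∈ G', ZFSet.pair z u ∈ K'
  have hval : ∀ z ∈ Q', snd z ∈ Tcl := by
    intro z hz
    obtain ⟨⟨b1, t, rfl⟩, hb1, ht⟩ := fa z hz
    rw [fst_pair] at hb1
    rw [snd_pair] at ht ⊢
    have hzN : ZFSet.pair b1 t ∈ N' := hNt _ (inN kQ) hz
    have h1 : ∃ y, σ (ZFSet.pair b1 t) y ≠ ⊥ := by
      by_contra hcon
      push Not at hcon
      have h2 := map.tot _ hzN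
      simp only [hcon, iSup_bot] at h2
      exact ne h2.symm
    obtain ⟨y, hy⟩ := h1
    obtain ⟨y1, y2, rfl, hle⟩ := (ap1 b1 (hNt _ (inN kB) hb1) t (hNt _ (inN kH) ht)).2.2 y hy
    have h3 : σ t y2 ≠ ⊥ := fun h => hy (le_bot_iff.1 (hle.trans (by rw [h, inf_bot_eq])))
    have h4 : y2 = t := (au t t (hHk t ht).1).2.2.2.1 y2 h3
    subst h4
    have h5 : σ (ZFSet.pair b1 y2) (ZFSet.pair y1 y2) ⊓ σ Q' (QC C r) ≠ ⊥ := by
      rw [kQ, inf_eq_left.2 (leb _ _)]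
      exact hy
    have h6 := (am _ _ _ _ h5).1.1 hz
    obtain ⟨⟨b3, -, t3, ht3, h7⟩, -⟩ := mem_QC.1 h6
    rw [(ZFSet.pair_inj.1 h7).2]
    exact ht3
  have hel : ∀ z ∈ Q', ∀ x ∈ snd z, x ∈ δ.toZFSet ∧ σ x x = b := by
    intro z hz x hx
    have hxH : x ∈ H' := hHt _ (fa z hz).2.2 hx
    obtain ⟨α, -, rfl⟩ := Ordinal.mem_toZFSet_iff.1 ((mem_Tcl.1 (hval z hz)).1 hx)
    have h1 := hHr _ hxH
    rw [Ordinal.rank_toZFSet] at h1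
    exact ⟨Ordinal.toZFSet_mem_toZFSet_iff.2 h1, (hHk _ hxH).1⟩
  have hnon : ∀ x ∈ G', ∀ y ∈ G', (x ∩ y).Nonempty := by
    intro x hx y hy
    rcases ZFSet.eq_empty_or_nonempty (x ∩ y) with h | h
    · have h1 := gen.inter x hx y hy
      rw [h] at h1
      exact absurd h1 gen.bot
    · exact h
  -- (3)
  have hcmp : ∀ z, GQ z → ∀ z2, GQ z2 → EEx (snd z) (snd z2) ∨ EEx (snd z2) (snd z) := by
    rintro z ⟨hz, u, hu, hzu⟩ z2 ⟨hz2, u2, hu2, hzu2⟩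
    exact fe z hz z2 hz2 u (gen.sub hu) u2 (gen.sub hu2) hzu hzu2 (hnon u hu u2 hu2)
  -- (4)
  have hlong : ∀ β ∈ δ.toZFSet, ∃ z, GQ z ∧ ∃ y ∈ snd z, β ∈ y := by
    intro β hβ
    have hDN := tD1.1 (· ∈ N') zf (cons C' (cons Q' (cons K' fun _ => β)))
      ((((show In (· ∈ N') (fun _ => β) from fun _ => hNt _ (inN kw) hβ).cons (inN kK)).cons
        (inN kQ)).cons (inN kC))
    obtain ⟨d, hd, hdG⟩ := gen.meets _ hDN (fun d hd => (ZFSet.mem_sep.1 hd).1) (by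
      intro x hx hne
      obtain ⟨d, h1, h2, h3, h4⟩ := ff β hβ x hx
        ((ZFSet.eq_empty_or_nonempty x).resolve_left hne)
      refine ⟨d, ZFSet.mem_sep.2 ⟨h1, h4⟩, ?_, h3⟩
      rintro rfl
      exact ZFSet.not_nonempty_empty h2)
    obtain ⟨-, z, hz, hzd, y, hy, hβy⟩ := ZFSet.mem_sep.1 hd
    exact ⟨z, ⟨hz, d, hdG, hzd⟩, y, hy, hβy⟩
  -- (5)
  have hdec : ∀ x ∈ C', ∃ z ∈ Q', ∃ d ∈ G', ZFSet.pair z d ∈ K' ∧
      (d ⊆ x ∨ ¬ (d ∩ x).Nonempty) := by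
    intro x hx
    have hDN := tD2.1 (· ∈ N') zf (cons C' (cons Q' (cons K' fun _ => x)))
      ((((show In (· ∈ N') (fun _ => x) from fun _ => hNt _ (inN kC) hx).cons (inN kK)).cons
        (inN kQ)).cons (inN kC))
    obtain ⟨d, hd, hdG⟩ := gen.meets _ hDN (fun d hd => (ZFSet.mem_sep.1 hd).1) (by
      intro y hy hne
      obtain ⟨d, h1, h2, h3, h4⟩ := fx x hx y hy
        ((ZFSet.eq_empty_or_nonempty y).resolve_left hne)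
      refine ⟨d, ZFSet.mem_sep.2 ⟨h1, h4⟩, ?_, h3⟩
      rintro rfl
      exact ZFSet.not_nonempty_empty h2)
    obtain ⟨-, z, hz, hzd, h⟩ := ZFSet.mem_sep.1 hd
    exact ⟨z, hz, d, hdG, hzd, h⟩
  have hbel : ∀ x ∈ G', ∃ z ∈ Q', ∃ d ∈ G', ZFSet.pair z d ∈ K' ∧ d ⊆ x := by
    intro x hx
    obtain ⟨z, hz, d, hd, hzd, h⟩ := hdec x (gen.sub hx)
    exact ⟨z, hz, d, hd, hzd, h.resolve_right (not_not.2 (hnon d hd x hx))⟩
  -- the first components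
  have hfst : ∀ z, GQ z → ∀ a ∈ B', fst z ⊆ a → ∀ v, σ a v ≤ mkEl C.B v := by
    rintro z ⟨hz, u, hu, hzu⟩ a ha hsub v
    obtain ⟨y, hy, hzy⟩ := fg.2 (fst z) (fa z hz).2.1
    obtain ⟨y2, hy2, hay2⟩ := fg.2 a ha
    have h1 := fd z hz u (gen.sub hu) y hy hzu hzy
    have h2 := fj (fst z) (fa z hz).2.1 a ha y hy y2 hy2 hzy hay2 hsub
    exact com a y2 hay2 (gen.up u hu y2 hy2 (fun _ h => h2 (h1 h))) v
  -- the closed set
  let T0 : V := (δ.toZFSet : V).sep fun x => ∃ z, GQ z ∧ x ∈ snd z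
  let tS : V := insert δ.toZFSet T0
  have mtS : ∀ x, x ∈ tS ↔ x = δ.toZFSet ∨ ∃ z, GQ z ∧ x ∈ snd z := by
    intro x
    show x ∈ insert δ.toZFSet T0 ↔ _
    rw [ZFSet.mem_insert_iff]
    refine or_congr_right ?_
    show x ∈ (δ.toZFSet : V).sep _ ↔ _
    rw [ZFSet.mem_sep]
    exact ⟨fun h => h.2, fun h => ⟨(hel h.choose h.choose_spec.1.1 x h.choose_spec.2).1, h⟩⟩
  have hmax : ∀ x ∈ tS, x ∈ δ.toZFSet ∨ x = δ.toZFSet := by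
    intro x hx
    rcases (mtS x).1 hx with h | ⟨z, hz, hx2⟩
    · exact Or.inr h
    · exact Or.inl (hel z hz.1 x hx2).1
  have hend : ∀ z, GQ z → EEx tS (snd z) := by
    intro z hz
    refine ⟨fun x hx => (mtS x).2 (Or.inr ⟨z, hz, hx⟩), fun x hx hm => ?_⟩
    rcases (mtS x).1 hx with rfl | ⟨z2, hz2, hx2⟩
    · exfalso
      obtain ⟨m, hm, h⟩ := hm
      have h1 := (hel z hz.1 m hm).1
      rcases h with h | rfl
      · exact ZFSet.mem_asymm h h1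
      · exact ZFSet.mem_irrefl _ h1
    · rcases hcmp z hz z2 hz2 with h | h
      · exact h.1 hx2
      · exact h.2 x hx2 hm
  have hw1 : δ.toZFSet ⊆ w1 := Ordinal.toZFSet_subset_toZFSet_iff.2 hδ1.le
  have htSw : tS ⊆ w1 := by
    intro x hx
    rcases hmax x hx with h | rfl
    · exact hw1 h
    · exact Ordinal.toZFSet_mem_toZFSet_iff.2 hδ1
  have hTcl : tS ∈ Tcl := by
    refine mem_Tcl.2 ⟨htSw, htSw, ⟨δ.toZFSet, (mtS _).2 (Or.inl rfl), hmax⟩, ?_⟩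
    intro α hα hα0 hcl
    obtain ⟨a, ha, rfl⟩ := Ordinal.mem_toZFSet_iff.1 hα
    rcases lt_trichotomy a δ with hlt | rfl | hgt
    · obtain ⟨z, hz, y, hy, hαy⟩ := hlong a.toZFSet (Ordinal.toZFSet_mem_toZFSet_iff.2 hlt)
      obtain ⟨η, -, rfl⟩ := Ordinal.mem_toZFSet_iff.1 (hel z hz.1 y hy).1
      refine (mtS _).2 (Or.inr ⟨z, hz, (mem_Tcl.1 (hval z hz.1)).2.2.2 _ hα hα0 ?_⟩)
      intro β hβ
      obtain ⟨γ, h3, h1, h2⟩ := hcl β hβ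
      refine ⟨γ, (hend z hz).2 _ h3 ⟨_, hy, Or.inl ?_⟩, h1, h2⟩
      exact (ZFSet.isOrdinal_toZFSet η).isTransitive _ hαy h2
    · exact (mtS _).2 (Or.inl rfl)
    · exfalso
      obtain ⟨γ, h3, h1, -⟩ := hcl δ.toZFSet (Ordinal.toZFSet_mem_toZFSet_iff.2 hgt)
      rcases hmax γ h3 with h | rfl
      · exact ZFSet.mem_asymm h h1
      · exact ZFSet.mem_irrefl _ h1
  -- values of functions on `ω₁`
  have hfn : ∀ (f : V → V) (f' : V), σ f' (fnw f) = b → ∀ x ∈ δ.toZFSet, ∀ y,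
      ZFSet.pair x y ∈ f' → σ x x = b → σ y (f x) = b := by
    intro f f' hf x hx y hxy hxx
    obtain ⟨-, x2, -, h1, -, h3⟩ := hAF C.B N' N b σ np map ne f' (fnw f) δ.toZFSet w1 hf kw
      (fun y hy => ⟨f y, pair_mem_resS.2 ⟨hy, rfl⟩, fun z hz => (pair_mem_resS.1 hz).2⟩) x hx
    have h4 : y = x2 := (h1 y).1 hxy
    subst h4
    refine le_antisymm (leb _ _) ?_
    have h5 := h3 x (f x) (pair_mem_resS.2 ⟨hw1 hx, rfl⟩)
    rwa [hxx] at h5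
  -- (7)
  have htau : b ≤ tau C r tS := by
    refine le_iInf fun x => ?_
    obtain ⟨ξ, hξ⟩ := x
    show b ≤ gval C r ξ
    rcases (mtS ξ.toZFSet).1 hξ with hx | ⟨z, hz, hx⟩
    · have hx' : ξ = δ := Ordinal.toZFSet_injective hx
      subst hx'
      -- the last element
      let S : V := ev ξ.toZFSet kr' G'
      have h1 : b ≤ C.g (acc ξ.toZFSet S) := sc kr' (inN kkr)
      have h2 : b ≤ ⨅ β : Set.Iio ξ, if β.1.toZFSet ∈ S then r β.1 else (r β.1)ᶜ := by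
        refine le_iInf fun β => ?_
        obtain ⟨η, hη⟩ := β
        have hβ : η.toZFSet ∈ ξ.toZFSet := Ordinal.toZFSet_mem_toZFSet_iff.2 hη
        have hββ : σ η.toZFSet η.toZFSet = b := (hδk η hη).2
        obtain ⟨x1, hx1, u, hu, x2, hx2, u2, hu2, g1, g2, g3, g4, g5, g6⟩ := fr _ hβ
        show b ≤ if η.toZFSet ∈ S then r η else (r η)ᶜ
        split_ifs with hβS
        · obtain ⟨-, c, hcG, hc⟩ := ZFSet.mem_sep.1 hβS
          have h3 : c = u := fs _ c u hc g3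
          subst h3
          have h4 := com x1 c g2 hcG (r η).val
          have h5 := hfn (fun x => (r x.rank).val) rr' krr _ hβ x1 g1 hββ
          simp only [Ordinal.rank_toZFSet] at h5
          rw [h5, mkEl_val] at h4
          exact h4
        · have huG : u ∉ G' := fun h => hβS (ZFSet.mem_sep.2 ⟨hβ, u, h, g3⟩)
          obtain ⟨z, hz, d, hd, hzd, h⟩ := hdec u hu
          have h3 : ¬ (d ∩ u).Nonempty := h.resolve_left fun h => huG (gen.up d hd u hu h)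
          have h4 := com x2 u2 g5 (gen.up d hd u2 hu2 (g6 d (gen.sub hd) h3)) ((r η)ᶜ).val
          have h5 := hfn (fun x => ((r x.rank)ᶜ).val) cr' kcr _ hβ x2 g4 hββ
          simp only [Ordinal.rank_toZFSet] at h5
          rw [h5, mkEl_val] at h4
          exact h4
      have h3 : C.g (acc ξ.toZFSet S) ⊓
          (⨅ β : Set.Iio ξ, if β.1.toZFSet ∈ S then r β.1 else (r β.1)ᶜ) ≤ gval C r ξ := by
        unfold gval
        refine le_iSup_of_le (⟨S, fun a ha => (ZFSet.mem_sep.1 ha).1⟩ :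
          {S : V // S ⊆ ξ.toZFSet}) ?_
        refine inf_le_inf_left _ (iInf_mono fun β => ?_)
        show (if β.1.toZFSet ∈ S then r β.1 else (r β.1)ᶜ) ≤
          if β.1.toZFSet ∈ S then r β.1 else (r β.1)ᶜ
        split_ifs <;> exact le_rfl
      exact (le_inf h1 h2).trans h3
    · obtain ⟨hxδ, hxx⟩ := hel z hz.1 _ hx
      obtain ⟨a, ha, hxa, hsub⟩ := fi z hz.1 _ hx
      have h1 := hfst z hz a ha hsub (gval C r ξ).val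
      have h5 := hfn (fun x => (gval C r x.rank).val) ap' kap _ hxδ a hxa hxx
      simp only [Ordinal.rank_toZFSet] at h5
      rw [h5, mkEl_val] at h1
      exact h1
  -- (8)
  have hQ : ZFSet.pair b.val tS ∈ QC C r := by
    refine mem_QC.2 ⟨⟨b.val, b.mem, tS, hTcl, rfl⟩, ?_, ?_⟩
    · rw [fst_pair]
      intro h
      apply ne
      apply El.ext
      rw [El.bot_val, h]
    · rw [fst_pair, snd_pair]
      exact El.le_iff.1 htau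
  obtain ⟨hcl1, hcl2⟩ := hS.cl b tS hQ
  refine ⟨k b ⊓ e tS, inf_le_left, hcl2, ?_⟩
  -- (10)
  intro x hx z
  obtain ⟨m1, m2, -, -, -, m6, -⟩ := hMB C.B Z.B k.toMor
  obtain ⟨z1, hz1, d, hd, hz1d, hdx⟩ := hbel x hx
  have hGz1 : GQ z1 := ⟨hz1, d, hd, hz1d⟩
  obtain ⟨⟨b1, t, rfl⟩, hb1, ht⟩ := fa z1 hz1
  rw [fst_pair] at hb1
  rw [snd_pair] at ht
  have hb1N : b1 ∈ N' := hNt _ (inN kB) hb1
  have htt : σ t t = b := (hHk t ht).1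
  have hend1 := hend _ hGz1
  rw [snd_pair] at hend1
  have hfst1 := hfst _ hGz1 b1 hb1 (by rw [fst_pair])
  have hsup : σ x z = ⨆ y, σ x z ⊓ σ b1 y := by
    rw [← inf_iSup_eq, map.tot b1 hb1N, inf_eq_left.2 (leb _ _)]
  have hk : (k.toMor (σ x z) : El Z.B) = ⨆ y, k.toMor (σ x z ⊓ σ b1 y) := by
    conv_lhs => rw [hsup]
    exact m6 V fun y => σ x z ⊓ σ b1 y
  show (k.toMor (σ x z) : El Z.B) ⊓ (k b ⊓ e tS) ≤ mkEl Z.B z
  rw [hk, iSup_inf_eq]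
  refine iSup_le fun y => ?_
  by_cases hy : σ x z ⊓ σ b1 y = ⊥
  · rw [hy, m2, bot_inf_eq]
    exact bot_le
  have hle1 : σ b1 y ≤ σ (ZFSet.pair b1 t) (ZFSet.pair y t) := by
    refine le_trans ?_ ((ap1 b1 hb1N t (hNt _ (inN kH) ht)).2.1 y t)
    rw [htt]
    exact le_inf le_rfl (leb _ _)
  have hne1 : σ x z ⊓ σ (ZFSet.pair b1 t) (ZFSet.pair y t) ≠ ⊥ := by
    intro h
    exact hy (le_bot_iff.1 ((inf_le_inf_left _ hle1).trans (le_of_eq h)))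
  have hyQ : ZFSet.pair y t ∈ QC C r := by
    have h1 : σ (ZFSet.pair b1 t) (ZFSet.pair y t) ⊓ σ Q' (QC C r) ≠ ⊥ := by
      rw [kQ, inf_eq_left.2 (leb _ _)]
      intro h
      rw [h, inf_bot_eq] at hne1
      exact hne1 rfl
    exact (am _ _ _ _ h1).1.1 hz1
  have hleK : σ (ZFSet.pair b1 t) (ZFSet.pair y t) ≤
      σ d (cl (QC C r) leQC (ZFSet.pair y t)) := by
    obtain ⟨-, x2, -, h1, -, h3⟩ := hAF C.B N' N b σ np map ne K' (KQ C r) Q' (QC C r) kK kQ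
      (fun y hy => ⟨cl (QC C r) leQC y, pair_mem_resS.2 ⟨hy, rfl⟩,
        fun z hz => (pair_mem_resS.1 hz).2⟩) _ hz1
    have h4 : d = x2 := (h1 d).1 hz1d
    subst h4
    exact h3 _ _ (pair_mem_resS.2 ⟨hyQ, rfl⟩)
  have hne2 : σ d (cl (QC C r) leQC (ZFSet.pair y t)) ⊓ σ x z ≠ ⊥ := by
    intro h
    rw [inf_comm] at h
    exact hne1 (le_bot_iff.1 ((inf_le_inf_left _ hleK).trans (le_of_eq h)))
  have hclz : cl (QC C r) leQC (ZFSet.pair y t) ⊆ z := (am _ _ _ _ hne2).2.2.1.1 hdx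
  have hzZ : z ∈ Z.B := by
    have h1 : σ x z ⊓ σ C' Z.B ≠ ⊥ := by
      rw [kC, inf_eq_left.2 (leb _ _)]
      intro h
      rw [h, bot_inf_eq] at hy
      exact hy rfl
    exact (am _ _ _ _ h1).1.1 (gen.sub hx)
  have hyB : y ∈ C.B := by
    obtain ⟨⟨b2, hb2, t2, -, h⟩, -⟩ := mem_QC.1 hyQ
    rw [(ZFSet.pair_inj.1 h).1]
    exact hb2
  have hy2 : σ b1 y ≤ (⟨y, hyB⟩ : El C.B) := by
    have h1 := hfst1 y
    have h2 : mkEl C.B y = ⟨y, hyB⟩ := dif_pos hyB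
    rwa [h2] at h1
  have hcl3 := (hS.cl ⟨y, hyB⟩ t hyQ).1
  have het : e tS ≤ e t := by
    rw [El.le_iff, hS.eval, hS.eval]
    intro q hq
    obtain ⟨hq1, hq2⟩ := ZFSet.mem_sep.1 hq
    refine ZFSet.mem_sep.2 ⟨hq1, fun z' hz' hzq => ?_⟩
    obtain ⟨z2, hz2, h3, h4⟩ := hq2 z' hz' hzq
    exact ⟨z2, hz2, h3, h4.trans hend1⟩
  have h1 : (k.toMor (σ x z ⊓ σ b1 y) : El Z.B) ⊓ (k b ⊓ e tS) ≤ k ⟨y, hyB⟩ ⊓ e t := by
    refine le_inf ?_ ?_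
    · exact inf_le_left.trans (m1 _ _ (inf_le_right.trans hy2))
    · exact inf_le_right.trans (inf_le_right.trans het)
  refine h1.trans ?_
  have h2 : mkEl Z.B z = ⟨z, hzZ⟩ := dif_pos hzZ
  rw [h2, El.le_iff, hcl3]
  exact hclz

end frame

theorem xm (hXB : T_XB) (hXL : T_XL) (hAM : T_AM) (hAP : T_AP) (hAF : T_AF) (hAU : T_AU)
    (hAH : T_AH) (hTR : T_TR) (hBR : T_BR) (hZN : T_ZN) (hMB : T_MB) (hMP : T_MP)
    (hRS : T_RS) : T_XM := by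
  intro C hC r Z k e hS
  refine ⟨ZFSet.pair HC (ZFSet.pair (QC C r) (ZFSet.pair (KQ C r)
    (ZFSet.pair (fnw fun x => (gval C r x.rank).val) (ZFSet.pair (fnw fun x => (r x.rank).val)
    (ZFSet.pair (fnw fun x => ((r x.rank)ᶜ).val) (fnw fun x => (k (r x.rank)).val)))))), ?_⟩
  intro F q hq
  have leb := bmap_le_b F.map
  have hsplit : ∀ {z' y y2 : V}, F.σ z' (ZFSet.pair y y2) = F.b → ∃ x x2, F.σ x y = F.b ∧
      F.σ x2 y2 = F.b := by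
    intro z' y y2 h
    have h0 : F.σ z' (ZFSet.pair y y2) ≠ ⊥ := by
      rw [h]
      exact F.ne
    obtain ⟨x, -, x2, -, -, hle⟩ := (hAP C.B F.N' F.N F.b F.σ F.np F.map F.ne).2.1 z' y y2 h0
    rw [h] at hle
    exact ⟨x, x2, le_antisymm (leb _ _) (hle.trans inf_le_left),
      le_antisymm (leb _ _) (hle.trans inf_le_right)⟩
  obtain ⟨H', p1, kH, h1⟩ := hsplit F.kp
  obtain ⟨Q', p2, kQ, h2⟩ := hsplit h1
  obtain ⟨K', p3, kK, h3⟩ := hsplit h2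
  obtain ⟨ap', p4, kap, h4⟩ := hsplit h3
  obtain ⟨rr', p5, krr, h5⟩ := hsplit h4
  obtain ⟨cr', kr', kcr, kkr⟩ := hsplit h5
  obtain ⟨c, hc1, hc2, hc3⟩ := xm_core hXB hXL hAM hAP hAF hAU hAH hTR hZN hMB hRS hC hS F.np F.ne
    F.map F.kw F.kB F.kC F.kh F.gen F.com F.sc kH kQ kK kap krr kcr kkr
  refine ⟨c, fun x y => k (F.σ x y) ⊓ c, hc1, ?_, ?_, hc3, ?_⟩
  · intro b' hb'
    have h6 : c ≤ k ⊤ := by
      rw [hS.top]
      exact le_top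
    have h7 := ((hMP C.B Z.B k.toMor).1 c b' h6).2 hb'
    rwa [hc2] at h7
  · exact hBR C.B Z.B F.N' F.N F.b F.σ k.toMor F.map c hc1
  · intro z
    exact le_of_eq (inf_comm _ _)

end SF.H65
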